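import Pool.Agent.X296.Count.Params

/-!
# Absolute simplicity
-/

open Polynomial NumberField

namespace Pool.Agent.X296.Count

open Pool.Agent.W518.DN Pool.Agent.W518.TC

/-- The roots of an ordinary irreducible polynomial are not supersingular. -/
theorem not_ss {p a g : ℕ} [hp : Fact p.Prime] (ha : 1 ≤ a) (hg : 1 ≤ g) {P : ℤ[X]}
    (hPm : P.Monic) (hPd : P.natDegree = 2 * g) (hirr : Irreducible P)
    (hord : ¬ (p : ℤ) ∣ P.coeff g) {z : ℂ} (hz : (P.map (Int.castRingHom ℂ)).IsRoot z) {n : ℕ}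
    (hn : 0 < n) : z ^ (2 * n) ≠ ((p ^ a : ℕ) : ℂ) ^ n := by
  intro hcon
  set G : ℤ[X] := X ^ (2 * n) - C (((p ^ a : ℕ) : ℤ) ^ n) with hG
  have hGm : G.Monic := monic_X_pow_sub_C _ (by omega)
  have hirrQ : Irreducible (P.map (Int.castRingHom ℚ)) :=
    (IsPrimitive.Int.irreducible_iff_irreducible_map_cast hPm.isPrimitive).1 hirr
  have hcomp : (algebraMap ℚ ℂ).comp (Int.castRingHom ℚ) = Int.castRingHom ℂ :=
    RingHom.ext_int _ _
  have hmin : minpoly ℚ z = P.map (Int.castRingHom ℚ) := by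
    refine (minpoly.eq_of_irreducible_of_monic hirrQ ?_ (hPm.map _)).symm
    rw [← eval_map_algebraMap, Polynomial.map_map, hcomp]; exact hz
  have hdvdQ : P.map (Int.castRingHom ℚ) ∣ G.map (Int.castRingHom ℚ) := by
    rw [← hmin]
    apply minpoly.dvd
    rw [← eval_map_algebraMap, Polynomial.map_map, hcomp, hG]
    simp only [Polynomial.map_sub, Polynomial.map_pow, map_X, map_C, eval_sub, eval_pow, eval_X,
      eval_C]
    rw [hcon, map_pow]
    simp
  have hdvd : P ∣ G :=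
    (IsPrimitive.Int.dvd_iff_map_cast_dvd_map_cast P G hPm.isPrimitive).2 hdvdQ
  have h1 : P.map (Int.castRingHom (ZMod p)) ∣ X ^ (2 * n) := by
    have h2 := Polynomial.map_dvd (Int.castRingHom (ZMod p)) hdvd
    have h3 : G.map (Int.castRingHom (ZMod p)) = X ^ (2 * n) := by
      rw [hG]
      simp only [Polynomial.map_sub, Polynomial.map_pow, map_X, map_C]
      have h4 : (Int.castRingHom (ZMod p)) (((p ^ a : ℕ) : ℤ) ^ n) = 0 := by
        push_cast
        rw [map_pow, map_pow, map_natCast, ZMod.natCast_self, zero_pow (by omega),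
          zero_pow (by omega)]
      rw [h4, C_0, sub_zero]
    rwa [h3] at h2
  obtain ⟨i, -, hi⟩ := (dvd_prime_pow prime_X _).1 h1
  have h2 : P.map (Int.castRingHom (ZMod p)) = X ^ i :=
    eq_of_monic_of_associated (hPm.map _) (monic_X_pow i) hi
  have h3 : i = 2 * g := by
    have := congrArg natDegree h2
    rw [hPm.natDegree_map, hPd, natDegree_X_pow] at this
    exact this.symm
  have h4 := congrArg (fun R : (ZMod p)[X] => R.coeff g) h2
  simp only [coeff_map] at h4
  rw [h3, coeff_X_pow, if_neg (by omega)] at h4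
  exact hord ((ZMod.intCast_zmod_eq_zero_iff_dvd _ _).1 h4)

section

variable {L : Type} [Field L] [NumberField L] [IsGalois ℚ L]

/-- All flips are conjugate. -/
theorem flip_at {q g : ℕ} {h : ℤ[X]} (hm : h.Monic)
    (hirr : Irreducible (h.map (Int.castRingHom ℚ))) (σ : L ≃ₐ[ℚ] L) (y0 : L)
    (hy0 : (h.map (Int.castRingHom L)).IsRoot y0)
    (hσ : ∀ π : L, ((lift (q : ℤ) g h).map (Int.castRingHom L)).IsRoot π →
        (π + q / π = y0 → σ π = q / π) ∧ (π + q / π ≠ y0 → σ π = π))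
    (y : L) (hy : (h.map (Int.castRingHom L)).IsRoot y) :
    ∃ σ' : L ≃ₐ[ℚ] L, ∀ π : L, ((lift (q : ℤ) g h).map (Int.castRingHom L)).IsRoot π →
        (π + q / π = y → σ' π = q / π) ∧ (π + q / π ≠ y → σ' π = π) := by
  have hcomp : (algebraMap ℚ L).comp (Int.castRingHom ℚ) = Int.castRingHom L :=
    RingHom.ext_int _ _
  have hmin : ∀ y : L, (h.map (Int.castRingHom L)).IsRoot y →
      minpoly ℚ y = h.map (Int.castRingHom ℚ) := by
    intro y hy
    refine (minpoly.eq_of_irreducible_of_monic hirr ?_ (hm.map _)).symm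
    rw [← eval_map_algebraMap, Polynomial.map_map, hcomp]; exact hy
  have hconj : IsConjRoot ℚ y y0 := by
    rw [isConjRoot_def, hmin y hy, hmin y0 hy0]
  obtain ⟨τ, hτ⟩ := isConjRoot_iff_exists_algEquiv.1 hconj
  refine ⟨(τ.symm.trans σ).trans τ, fun π hπ => ?_⟩
  have h1 : ((lift (q : ℤ) g h).map (Int.castRingHom L)).IsRoot (τ.symm π) := by
    have h2 : (lift (q : ℤ) g h).map (Int.castRingHom L) =
        ((lift (q : ℤ) g h).map (Int.castRingHom L)).map (τ.symm : L →+* L) := by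
      rw [Polynomial.map_map]; congr 1; exact RingHom.ext_int _ _
    rw [h2]
    exact hπ.map
  have h3 : τ.symm π + q / τ.symm π = τ.symm (π + q / π) := by
    rw [map_add, map_div₀, map_natCast]
  obtain ⟨h4, h5⟩ := hσ _ h1
  constructor
  · intro h6
    have h7 : τ.symm π + q / τ.symm π = y0 := by
      rw [h3, h6]
      exact (AlgEquiv.symm_apply_eq τ).2 hτ.symm
    rw [AlgEquiv.trans_apply, AlgEquiv.trans_apply, h4 h7, map_div₀, map_natCast,
      AlgEquiv.apply_symm_apply]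
  · intro h6
    have h7 : τ.symm π + q / τ.symm π ≠ y0 := by
      intro h8
      apply h6
      rw [h3] at h8
      have h9 := (AlgEquiv.symm_apply_eq τ).1 h8
      rw [h9]
      exact hτ
    rw [AlgEquiv.trans_apply, AlgEquiv.trans_apply, h5 h7, AlgEquiv.apply_symm_apply]

end

/-- Absolute simplicity: different roots have different powers. -/
theorem pow_inj (p : ℕ) [hp : Fact p.Prime] (a g : ℕ) (ha : 1 ≤ a) (hg : 1 ≤ g) (h : ℤ[X])
    (hm : h.Monic)
    (hd : h.natDegree = g) (hirr : Irreducible (h.map (Int.castRingHom ℚ)))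
    (hPirr : Irreducible (lift ((p ^ a : ℕ) : ℤ) g h))
    (hord : ¬ (p : ℤ) ∣ (lift ((p ^ a : ℕ) : ℤ) g h).coeff g)
    (l : ℕ) [hl : Fact l.Prime] (hl2 : l ≠ 2) (hlq : ¬ l ∣ p ^ a) (r : ℤ)
    (hr : (l : ℤ) ^ 2 ∣ r ^ 2 - 4 * (p ^ a : ℕ)) (h0 : (l : ℤ) ∣ h.eval r)
    (h1 : ¬ (l : ℤ) ^ 2 ∣ h.eval r) (hsep : (h.map (Int.castRingHom (ZMod l))).Separable)
    (hnr : ¬ (l : ℤ) ∣ h.eval (-r)) (n : ℕ) (hn : 0 < n) (z w : ℂ)
    (hz : ((lift ((p ^ a : ℕ) : ℤ) g h).map (Int.castRingHom ℂ)).IsRoot z)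
    (hw : ((lift ((p ^ a : ℕ) : ℤ) g h).map (Int.castRingHom ℂ)).IsRoot w)
    (hzw : z ^ n = w ^ n) : z = w := by
  classical
  have hq : p ^ a ≠ 0 := pow_ne_zero _ hp.out.ne_zero
  have hPm : (lift ((p ^ a : ℕ) : ℤ) g h).Monic := (lift_monic _ _ _ hm hd).1
  have hPd : (lift ((p ^ a : ℕ) : ℤ) g h).natDegree = 2 * g := (lift_monic _ _ _ hm hd).2
  set f : ℤ[X] := lift ((p ^ a : ℕ) : ℤ) g h * h with hf
  have hfm : f.Monic := hPm.mul hm
  set PQ : ℚ[X] := f.map (Int.castRingHom ℚ) with hPQ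
  have hLN : NumberField PQ.SplittingField :=
    { to_charZero := charZero_of_injective_algebraMap (algebraMap ℚ PQ.SplittingField).injective
      to_finiteDimensional := inferInstance }
  have hsf : IsSplittingField ℚ PQ.SplittingField PQ := Polynomial.IsSplittingField.splittingField PQ
  have hnormal : Normal ℚ PQ.SplittingField := Normal.of_isSplittingField PQ
  have hGal : IsGalois ℚ PQ.SplittingField := ⟨⟩
  have hsplit : (f.map (Int.castRingHom PQ.SplittingField)).Splits := by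
    have h1 := SplittingField.splits PQ
    convert h1 using 1
    rw [hPQ, Polynomial.map_map]; congr 1
  have hf0 : f.map (Int.castRingHom PQ.SplittingField) ≠ 0 := (hfm.map _).ne_zero
  have hPs : ((lift ((p ^ a : ℕ) : ℤ) g h).map (Int.castRingHom PQ.SplittingField)).Splits :=
    hsplit.of_dvd hf0 (Polynomial.map_dvd _ (dvd_mul_right _ _))
  have hhs : (h.map (Int.castRingHom PQ.SplittingField)).Splits :=
    hsplit.of_dvd hf0 (Polynomial.map_dvd _ (dvd_mul_left _ _))
  obtain ⟨φ⟩ : Nonempty (PQ.SplittingField →+* ℂ) := inferInstance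
  have hφ : ∀ x : ℂ, ((lift ((p ^ a : ℕ) : ℤ) g h).map (Int.castRingHom ℂ)).IsRoot x →
      ∃ x' : PQ.SplittingField,
        ((lift ((p ^ a : ℕ) : ℤ) g h).map (Int.castRingHom PQ.SplittingField)).IsRoot x' ∧
        φ x' = x := by
    intro x hx
    have e1 : (lift ((p ^ a : ℕ) : ℤ) g h).map (Int.castRingHom ℂ) =
        ((lift ((p ^ a : ℕ) : ℤ) g h).map (Int.castRingHom PQ.SplittingField)).map φ := by
      rw [Polynomial.map_map]; congr 1; exact RingHom.ext_int _ _
    have e2 : x ∈ (((lift ((p ^ a : ℕ) : ℤ) g h).map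
        (Int.castRingHom PQ.SplittingField)).map φ).roots := by
      rw [mem_roots ((hPm.map _).map _).ne_zero, ← e1]; exact hx
    rw [hPs.roots_map] at e2
    obtain ⟨x', hx', e3⟩ := Multiset.mem_map.1 e2
    exact ⟨x', (mem_roots (hPm.map _).ne_zero).1 hx', e3⟩
  obtain ⟨z', hz', rfl⟩ := hφ z hz
  obtain ⟨w', hw', rfl⟩ := hφ w hw
  have hzw' : z' ^ n = w' ^ n := by
    apply φ.injective; rw [map_pow, map_pow]; exact hzw
  obtain ⟨σ, y0, hy0, hσ⟩ := exists_flip_ram (L := PQ.SplittingField) (p ^ a) hq g h hm hd hhs hPs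
    l hl2 hlq r hr h0 h1 hsep hnr
  obtain ⟨hz0, -, hyz⟩ := root_symm hm hd hq hz'
  obtain ⟨hw0, -, -⟩ := root_symm hm hd hq hw'
  obtain ⟨σ', hσ'⟩ := flip_at hm hirr σ y0 hy0 hσ _ hyz
  have hss : z' ^ (2 * n) ≠ ((p ^ a : ℕ) : PQ.SplittingField) ^ n := by
    intro hcon
    have h2 := congrArg φ hcon
    rw [map_pow, map_pow, map_natCast] at h2
    exact not_ss ha hg hPm hPd hPirr hord hz hn h2
  have hσz := (hσ' z' hz').1 rfl
  by_contra hne
  apply hss
  have hqz : (((p ^ a : ℕ) : PQ.SplittingField) / z') ^ n = z' ^ n := by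
    by_cases hyw : w' + ((p ^ a : ℕ) : PQ.SplittingField) / w' =
        z' + ((p ^ a : ℕ) : PQ.SplittingField) / z'
    · -- `w' = q / z'`
      have e1 : (w' - z') * (w' - ((p ^ a : ℕ) : PQ.SplittingField) / z') = 0 := by
        have e2 : (w' - z') * (w' - ((p ^ a : ℕ) : PQ.SplittingField) / z') =
            w' ^ 2 - (z' + ((p ^ a : ℕ) : PQ.SplittingField) / z') * w' +
              ((p ^ a : ℕ) : PQ.SplittingField) := by
          field_simp; ring
        rw [e2, ← hyw]; field_simp; ring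
      rcases mul_eq_zero.1 e1 with e3 | e3
      · exact absurd (by rw [sub_eq_zero.1 e3]) hne
      · rw [← sub_eq_zero.1 e3, ← hzw']
    · have e1 := (hσ' w' hw').2 hyw
      have e2 := congrArg σ' hzw'
      rw [map_pow, map_pow, hσz, e1, ← hzw'] at e2
      exact e2
  calc z' ^ (2 * n) = z' ^ n * z' ^ n := by ring
    _ = (((p ^ a : ℕ) : PQ.SplittingField) / z') ^ n * z' ^ n := by rw [hqz]
    _ = ((p ^ a : ℕ) : PQ.SplittingField) ^ n := by
        rw [← mul_pow, div_mul_cancel₀ _ hz0]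

end Pool.Agent.X296.Count
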