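import Pool.Agent.W518.DN.Final1

/-!
# Dickson polynomials as a basis, and polynomials with all roots in `(-2Q, 2Q)`
-/

open Polynomial

namespace Pool.Agent.X296.Count

open Pool.Agent.W518.DN Pool.Agent.W518.TC

noncomputable section

/-- Dickson polynomials of the first kind: `dick q n` at `z + q / z` is `z ^ n + (q / z) ^ n`. -/
def dick (q : ℤ) : ℕ → ℤ[X]
  | 0 => 2
  | 1 => X
  | (n + 2) => X * dick q (n + 1) - C q * dick q n

lemma dick_zero (q : ℤ) : dick q 0 = 2 := rfl

lemma dick_one (q : ℤ) : dick q 1 = X := rfl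

lemma dick_add_two (q : ℤ) (n : ℕ) : dick q (n + 2) = X * dick q (n + 1) - C q * dick q n := rfl

lemma dick_aux (q : ℤ) (n : ℕ) : (dick q n).natDegree ≤ n ∧ (dick q (n + 1)).Monic ∧
    (dick q (n + 1)).natDegree = n + 1 := by
  induction n with
  | zero =>
    refine ⟨?_, ?_, ?_⟩
    · rw [dick_zero]
      have : (2 : ℤ[X]) = C 2 := rfl
      rw [this, natDegree_C]
    · rw [zero_add, dick_one]; exact monic_X
    · rw [zero_add, dick_one]; exact natDegree_X
  | succ n ih =>
    obtain ⟨h1, h2, h3⟩ := ih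
    have h4 : (X * dick q (n + 1)).natDegree = n + 2 := by
      rw [natDegree_X_mul h2.ne_zero, h3]
    have h5 : (C q * dick q n).natDegree ≤ n := (natDegree_C_mul_le _ _).trans h1
    have h6 : (X * dick q (n + 1)).Monic := monic_X.mul h2
    refine ⟨h3.le, ?_, ?_⟩
    · rw [dick_add_two]
      refine h6.sub_of_left ?_
      refine (degree_le_natDegree).trans_lt ?_
      rw [degree_eq_natDegree h6.ne_zero, h4]
      exact_mod_cast (by omega)
    · rw [dick_add_two, natDegree_sub_eq_left_of_natDegree_lt, h4]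
      rw [h4]; omega

lemma dick_monic (q : ℤ) {n : ℕ} (hn : n ≠ 0) : (dick q n).Monic := by
  obtain ⟨m, rfl⟩ := Nat.exists_eq_succ_of_ne_zero hn
  exact (dick_aux q m).2.1

lemma dick_natDegree (q : ℤ) {n : ℕ} (hn : n ≠ 0) : (dick q n).natDegree = n := by
  obtain ⟨m, rfl⟩ := Nat.exists_eq_succ_of_ne_zero hn
  exact (dick_aux q m).2.2

/-- The coefficient just below the leading one vanishes. -/
lemma dick_coeff (q : ℤ) (n : ℕ) : (dick q (n + 1)).coeff n = 0 := by
  induction n with
  | zero => rw [zero_add, dick_one, coeff_X_zero]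
  | succ n ih =>
    rw [dick_add_two, coeff_sub, coeff_X_mul, ih, coeff_C_mul,
      coeff_eq_zero_of_natDegree_lt (lt_of_le_of_lt (dick_aux q n).1 (Nat.lt_succ_self n))]
    simp

lemma dick_eval {Q : ℝ} {q : ℤ} (hQ : Q ^ 2 = q) (θ : ℝ) (n : ℕ) :
    ((dick q n).map (Int.castRingHom ℝ)).eval (2 * Q * Real.cos θ) =
      2 * Q ^ n * Real.cos (n * θ) ∧
    ((dick q (n + 1)).map (Int.castRingHom ℝ)).eval (2 * Q * Real.cos θ) =
      2 * Q ^ (n + 1) * Real.cos ((n + 1 : ℕ) * θ) := by
  induction n with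
  | zero =>
    constructor
    · rw [dick_zero]; simp
    · rw [zero_add, dick_one]; simp
  | succ n ih =>
    refine ⟨ih.2, ?_⟩
    rw [dick_add_two]
    simp only [Polynomial.map_sub, Polynomial.map_mul, map_X, map_C, eval_sub, eval_mul, eval_X,
      eval_C]
    rw [ih.1, ih.2]
    have h1 : Real.cos (((n + 1 + 1 : ℕ) : ℝ) * θ) + Real.cos (n * θ) =
        2 * Real.cos (((n + 1 : ℕ) : ℝ) * θ) * Real.cos θ := by
      have e1 : ((n + 1 + 1 : ℕ) : ℝ) * θ = ((n + 1 : ℕ) : ℝ) * θ + θ := by push_cast; ring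
      have e2 : (n : ℝ) * θ = ((n + 1 : ℕ) : ℝ) * θ - θ := by push_cast; ring
      rw [e1, e2, Real.cos_add, Real.cos_sub]; ring
    have h2 : Real.cos (((n + 1 + 1 : ℕ) : ℝ) * θ) =
        2 * Real.cos (((n + 1 : ℕ) : ℝ) * θ) * Real.cos θ - Real.cos (n * θ) := by
      linarith
    rw [h2]
    have h3 : (Int.castRingHom ℝ) q = Q ^ 2 := by rw [hQ]; rfl
    rw [h3]
    ring

/-- The basis used for coordinates. -/
def bas (q : ℤ) (k : ℕ) : ℤ[X] := if k = 0 then 1 else dick q k

lemma bas_monic (q : ℤ) (k : ℕ) : (bas q k).Monic := by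
  unfold bas
  split_ifs with h
  · exact monic_one
  · exact dick_monic q h

lemma bas_natDegree (q : ℤ) (k : ℕ) : (bas q k).natDegree = k := by
  unfold bas
  split_ifs with h
  · rw [h, natDegree_one]
  · exact dick_natDegree q h

lemma bas_abs {Q : ℝ} (hQ0 : 0 ≤ Q) {q : ℤ} (hQ : Q ^ 2 = q) (θ : ℝ) (k : ℕ) :
    |((bas q k).map (Int.castRingHom ℝ)).eval (2 * Q * Real.cos θ)| ≤ 2 * Q ^ k := by
  unfold bas
  split_ifs with h
  · subst h; simp
  · rw [(dick_eval hQ θ k).1, abs_mul, abs_of_nonneg (by positivity)]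
    have := Real.abs_cos_le_one (k * θ)
    have h2 : 0 ≤ 2 * Q ^ k := by positivity
    nlinarith

/-- The polynomial with coordinates `c`. -/
def near (q : ℤ) (g n : ℕ) (c : ℕ → ℤ) : ℤ[X] :=
  dick q g + ∑ k ∈ Finset.range n, C (c k) * bas q k

lemma sum_degree_lt (q : ℤ) (n : ℕ) (c : ℕ → ℤ) :
    (∑ k ∈ Finset.range n, C (c k) * bas q k).degree < n := by
  rcases Nat.eq_zero_or_pos n with rfl | hn
  · simp
  refine lt_of_le_of_lt (degree_sum_le _ _) ?_
  rw [Finset.sup_lt_iff (by exact_mod_cast WithBot.bot_lt_coe n)]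
  intro k hk
  refine lt_of_le_of_lt (degree_le_natDegree) ?_
  have h1 : (C (c k) * bas q k).natDegree ≤ k :=
    (natDegree_C_mul_le _ _).trans (bas_natDegree q k).le
  have h2 := Finset.mem_range.1 hk
  exact_mod_cast lt_of_le_of_lt h1 h2

lemma near_monic (q : ℤ) {g n : ℕ} (hg : g ≠ 0) (hn : n ≤ g) (c : ℕ → ℤ) :
    (near q g n c).Monic := by
  unfold near
  refine (dick_monic q hg).add_of_left ?_
  rw [degree_eq_natDegree (dick_monic q hg).ne_zero, dick_natDegree q hg]
  exact (sum_degree_lt q n c).trans_le (by exact_mod_cast hn)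

lemma near_natDegree (q : ℤ) {g n : ℕ} (hg : g ≠ 0) (hn : n ≤ g) (c : ℕ → ℤ) :
    (near q g n c).natDegree = g := by
  unfold near
  have h1 : (∑ k ∈ Finset.range n, C (c k) * bas q k).degree < (dick q g).degree := by
    rw [degree_eq_natDegree (dick_monic q hg).ne_zero, dick_natDegree q hg]
    exact (sum_degree_lt q n c).trans_le (by exact_mod_cast hn)
  rw [natDegree_add_eq_left_of_degree_lt h1, dick_natDegree q hg]

/-- Every polynomial has coordinates. -/
lemma exists_coords (q : ℤ) (n : ℕ) : ∀ E : ℤ[X], E.degree < n →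
    ∃ c : ℕ → ℤ, E = ∑ k ∈ Finset.range n, C (c k) * bas q k := by
  induction n with
  | zero =>
    intro E hE
    refine ⟨fun _ => 0, ?_⟩
    have : E = 0 := by
      rw [← degree_eq_bot, ← Nat.WithBot.lt_zero_iff]; exact_mod_cast hE
    simp [this]
  | succ n ih =>
    intro E hE
    have h1 : (E - C (E.coeff n) * bas q n).degree < n := by
      rw [degree_lt_iff_coeff_zero] at hE ⊢
      intro m hm
      rw [coeff_sub, coeff_C_mul]
      rcases Nat.eq_or_lt_of_le hm with h2 | h2
      · subst h2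
        have h3 : (bas q n).coeff n = 1 := by
          have := (bas_monic q n).coeff_natDegree
          rwa [bas_natDegree] at this
        rw [h3]; ring
      · rw [hE m h2, coeff_eq_zero_of_natDegree_lt (p := bas q n) (by rw [bas_natDegree]; exact h2)]
        ring
    obtain ⟨c, hc⟩ := ih _ h1
    refine ⟨fun k => if k = n then E.coeff n else c k, ?_⟩
    rw [Finset.sum_range_succ]
    beta_reduce
    rw [if_pos rfl]
    have h2 : ∑ k ∈ Finset.range n, C (if k = n then E.coeff n else c k) * bas q k =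
        ∑ k ∈ Finset.range n, C (c k) * bas q k := by
      refine Finset.sum_congr rfl fun k hk => ?_
      rw [if_neg (Finset.mem_range.1 hk).ne]
    rw [h2, ← hc]; ring

/-- The coordinates are unique. -/
lemma coords_unique (q : ℤ) (n : ℕ) : ∀ c : ℕ → ℤ,
    ∑ k ∈ Finset.range n, C (c k) * bas q k = 0 → ∀ k < n, c k = 0 := by
  induction n with
  | zero => intro c _ k hk; omega
  | succ n ih =>
    intro c hc
    have h1 : c n = 0 := by
      have h2 := congrArg (fun P : ℤ[X] => P.coeff n) hc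
      simp only [Finset.sum_range_succ, coeff_add, coeff_C_mul, coeff_zero] at h2
      have h3 : (bas q n).coeff n = 1 := by
        have := (bas_monic q n).coeff_natDegree
        rwa [bas_natDegree] at this
      rw [coeff_eq_zero_of_degree_lt (sum_degree_lt q n c), h3] at h2
      simpa using h2
    rw [Finset.sum_range_succ, h1] at hc
    simp only [C_0, zero_mul, add_zero] at hc
    intro k hk
    rcases Nat.lt_succ_iff_lt_or_eq.1 hk with h2 | h2
    · exact ih c hc k h2
    · rw [h2, h1]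

lemma near_injective (q : ℤ) (g n : ℕ) {c c' : ℕ → ℤ} (h : near q g n c = near q g n c') :
    ∀ k < n, c k = c' k := by
  have h1 : ∑ k ∈ Finset.range n, C (c k - c' k) * bas q k = 0 := by
    unfold near at h
    have h2 := add_left_cancel h
    simp only [C_sub, sub_mul, Finset.sum_sub_distrib]
    rw [h2, sub_self]
  intro k hk
  exact sub_eq_zero.1 (coords_unique q n _ h1 k hk)

/-- Polynomials close to the Dickson polynomial have all their roots real, simple and in
`(-2Q, 2Q)`. -/
theorem near_roots {Q : ℝ} (hQ0 : 0 < Q) {q : ℤ} (hQ : Q ^ 2 = q) {g n : ℕ} (hg : 1 ≤ g)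
    (c : ℕ → ℤ) (hc : ∑ k ∈ Finset.range n, |(c k : ℝ)| * Q ^ k < Q ^ g) :
    ∃ y : Fin g → ℝ, Function.Injective y ∧
      (∀ i, ((near q g n c).map (Int.castRingHom ℝ)).IsRoot (y i)) ∧
      ∀ i, (y i) ^ 2 < 4 * q := by
  have hg0 : (0 : ℝ) < g := by exact_mod_cast hg
  set f : ℝ → ℝ := fun x => ((near q g n c).map (Int.castRingHom ℝ)).eval x with hf
  set θ : ℕ → ℝ := fun j => ((g : ℝ) - j) * Real.pi / g with hθ
  have hfθ : ∀ j, |f (2 * Q * Real.cos (θ j)) -
      2 * Q ^ g * Real.cos (((g : ℝ) - j) * Real.pi)| < 2 * Q ^ g := by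
    intro j
    have h1 : f (2 * Q * Real.cos (θ j)) = 2 * Q ^ g * Real.cos (((g : ℝ) - j) * Real.pi) +
        ∑ k ∈ Finset.range n, (c k : ℝ) *
          ((bas q k).map (Int.castRingHom ℝ)).eval (2 * Q * Real.cos (θ j)) := by
      rw [hf]
      simp only [near, Polynomial.map_add, eval_add, Polynomial.map_sum, eval_finsetSum,
        Polynomial.map_mul, map_C, eval_mul, eval_C]
      rw [(dick_eval hQ (θ j) g).1]
      have h2 : (g : ℝ) * θ j = ((g : ℝ) - j) * Real.pi := by
        rw [hθ]; field_simp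
      rw [h2]
      rfl
    rw [h1, add_sub_cancel_left]
    refine (Finset.abs_sum_le_sum_abs _ _).trans_lt ?_
    have h3 : ∑ k ∈ Finset.range n, |(c k : ℝ) *
          ((bas q k).map (Int.castRingHom ℝ)).eval (2 * Q * Real.cos (θ j))| ≤
        ∑ k ∈ Finset.range n, 2 * (|(c k : ℝ)| * Q ^ k) := by
      refine Finset.sum_le_sum fun k _ => ?_
      rw [abs_mul]
      have := bas_abs hQ0.le hQ (θ j) k
      have h4 := abs_nonneg (c k : ℝ)
      nlinarith
    rw [← Finset.mul_sum] at h3
    linarith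
  obtain ⟨y, hy, hy2⟩ := exists_zeros (g := g) f (Polynomial.continuous _)
    (fun j => 2 * Q * Real.cos (θ j)) (by
      intro i j hij
      have hij' : ((i : ℕ) : ℝ) < ((j : ℕ) : ℝ) := by exact_mod_cast hij
      have hj : ((j : ℕ) : ℝ) ≤ g := by exact_mod_cast Nat.lt_succ_iff.1 j.2
      have hi : (0 : ℝ) ≤ ((i : ℕ) : ℝ) := Nat.cast_nonneg _
      have h1 : θ j < θ i := by
        rw [hθ]
        simp only
        rw [div_lt_div_iff_of_pos_right hg0]
        nlinarith [Real.pi_pos]
      have h2 : 0 ≤ θ j := by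
        rw [hθ]
        simp only
        have : 0 ≤ (g : ℝ) - ((j : ℕ) : ℝ) := by linarith
        have := Real.pi_pos
        positivity
      have h3 : θ i ≤ Real.pi := by
        rw [hθ]
        simp only
        rw [div_le_iff₀ hg0]
        nlinarith [Real.pi_pos]
      have h4 := Real.cos_lt_cos_of_nonneg_of_le_pi h2 h3 h1
      simp only
      nlinarith) (by
      intro i
      have e1 : ((i.castSucc : Fin (g + 1)) : ℕ) = (i : ℕ) := rfl
      have e2 : ((i.succ : Fin (g + 1)) : ℕ) = (i : ℕ) + 1 := rfl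
      simp only [e1, e2]
      have h1 := hfθ i
      have h2 := hfθ (i + 1)
      have h3 : Real.cos (((g : ℝ) - ((i : ℕ) + 1 : ℕ)) * Real.pi) =
          - Real.cos (((g : ℝ) - (i : ℕ)) * Real.pi) := by
        have : ((g : ℝ) - ((i : ℕ) + 1 : ℕ)) * Real.pi =
            ((g : ℝ) - (i : ℕ)) * Real.pi - Real.pi := by push_cast; ring
        rw [this, Real.cos_sub_pi]
      rw [h3] at h2
      have h4 : Real.sin (((g : ℝ) - (i : ℕ)) * Real.pi) = 0 := by
        have := Real.sin_int_mul_pi ((g : ℤ) - (i : ℕ))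
        push_cast at this
        exact this
      have h5 := Real.sin_sq_add_cos_sq (((g : ℝ) - (i : ℕ)) * Real.pi)
      rw [h4] at h5
      have h6 : Real.cos (((g : ℝ) - (i : ℕ)) * Real.pi) = 1 ∨
          Real.cos (((g : ℝ) - (i : ℕ)) * Real.pi) = -1 := by
        have h7 : (Real.cos (((g : ℝ) - (i : ℕ)) * Real.pi) - 1) *
            (Real.cos (((g : ℝ) - (i : ℕ)) * Real.pi) + 1) = 0 := by nlinarith
        rcases mul_eq_zero.1 h7 with h8 | h8
        · left; linarith
        · right; linarith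
      have hpos : 0 < Q ^ g := by positivity
      rw [abs_lt] at h1 h2
      rcases h6 with h6 | h6
      · rw [h6] at h1 h2
        exact mul_neg_of_pos_of_neg (by linarith) (by linarith)
      · rw [h6] at h1 h2
        exact mul_neg_of_neg_of_pos (by linarith) (by linarith))
  refine ⟨y, hy, fun i => (hy2 i).1, fun i => ?_⟩
  obtain ⟨-, h1, h2⟩ := hy2 i
  have h3 := Real.neg_one_le_cos (θ (i.castSucc : Fin (g + 1)))
  have h4 := Real.cos_le_one (θ (i.succ : Fin (g + 1)))
  have h5 : -(2 * Q) < y i := lt_of_le_of_lt (by nlinarith) h1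
  have h6 : y i < 2 * Q := lt_of_lt_of_le h2 (by nlinarith)
  have h7 : (q : ℝ) = Q ^ 2 := hQ.symm
  rw [h7]
  nlinarith

end

end Pool.Agent.X296.Count
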