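import Pool.Agent.X296.Count.Abs

/-!
# The generalized Tate conjecture from flips
-/

open Polynomial NumberField

namespace Pool.Agent.X296.Count

open Pool.Agent.W518.DN Pool.Agent.W518.TC

section defs

variable {Ω V : Type*} [Field Ω] [AddCommGroup V] [Module Ω V]

/-- `x ∈ H ^ i` is an eigenclass of a power `F ^ s`, `s > 0`, of the Frobenius `F` of a variety over
the field with `q` elements, and the eigenvalue is an algebraic integer times `(q ^ ν) ^ s`. -/
def IsConiveauClass (F : Module.End Ω V) (q i ν : ℕ) (x : ExteriorAlgebra Ω V) : Prop :=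
  x ∈ ⋀[Ω]^i V ∧ ∃ (s : ℕ) (c : Ω), 0 < s ∧ IsIntegral ℤ c ∧
    ExteriorAlgebra.map (F ^ s) x = (((q : Ω) ^ ν) ^ s * c) • x

/-- The span of the products of `ν` Tate classes of codimension one (divisor classes) and one
arbitrary class, of total degree `i`. -/
def divisorial (F : Module.End Ω V) (q i ν : ℕ) : Submodule Ω (ExteriorAlgebra Ω V) :=
  Submodule.span Ω {z | ∃ (j : ℕ) (D : Fin ν → ExteriorAlgebra Ω V) (w : ExteriorAlgebra Ω V),
    i = 2 * ν + j ∧ (∀ k, IsTateClass F q 1 (D k)) ∧ w ∈ ⋀[Ω]^j V ∧ z = (List.ofFn D).prod * w}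

lemma divisorial_mul (F : Module.End Ω V) (q i ν : ℕ) (d y : ExteriorAlgebra Ω V)
    (hd : IsTateClass F q 1 d) (hy : y ∈ divisorial F q i ν) :
    d * y ∈ divisorial F q (i + 2) (ν + 1) := by
  unfold divisorial at hy
  induction hy using Submodule.span_induction with
  | mem z hz =>
    obtain ⟨j, D, w, hi, hD, hw, rfl⟩ := hz
    apply Submodule.subset_span
    refine ⟨j, Fin.cons d D, w, by omega, ?_, hw, ?_⟩
    · intro k
      refine Fin.cases ?_ ?_ k
      · exact hd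
      · intro k; exact hD k
    · rw [List.ofFn_succ]
      simp [mul_assoc]
  | zero => rw [mul_zero]; exact Submodule.zero_mem _
  | add x y _ _ hx hy => rw [mul_add]; exact Submodule.add_mem _ hx hy
  | smul c x _ hx => rw [mul_smul_comm]; exact Submodule.smul_mem _ c hx

lemma divisorial_zero (F : Module.End Ω V) (q i : ℕ) (y : ExteriorAlgebra Ω V)
    (hy : y ∈ ⋀[Ω]^i V) : y ∈ divisorial F q i 0 := by
  apply Submodule.subset_span
  exact ⟨i, Fin.elim0, y, by omega, fun k => k.elim0, hy, by simp⟩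

end defs

section key

variable {L : Type} [Field L] [NumberField L] [IsGalois ℚ L]

/-- Flips of any set of pairs. -/
theorem multi_flip {q g : ℕ} {h : ℤ[X]} (hq : q ≠ 0) (hm : h.Monic) (hd : h.natDegree = g)
    (hflip : ∀ y : L, (h.map (Int.castRingHom L)).IsRoot y → ∃ σ : L ≃ₐ[ℚ] L,
      ∀ π : L, ((lift (q : ℤ) g h).map (Int.castRingHom L)).IsRoot π →
        (π + q / π = y → σ π = q / π) ∧ (π + q / π ≠ y → σ π = π)) (Y : Finset L)
    (hY : ∀ y ∈ Y, (h.map (Int.castRingHom L)).IsRoot y) :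
    ∃ σ : L ≃ₐ[ℚ] L, ∀ π : L, ((lift (q : ℤ) g h).map (Int.castRingHom L)).IsRoot π →
        (π + q / π ∈ Y → σ π = q / π) ∧ (π + q / π ∉ Y → σ π = π) := by
  classical
  have hq0 : (q : L) ≠ 0 := by exact_mod_cast hq
  induction Y using Finset.induction_on with
  | empty => exact ⟨AlgEquiv.refl, fun π _ => ⟨fun h => by simp at h, fun _ => rfl⟩⟩
  | insert y Y hy ih =>
    obtain ⟨σ, hσ⟩ := ih fun z hz => hY z (Finset.mem_insert_of_mem hz)
    obtain ⟨τ, hτ⟩ := hflip y (hY y (Finset.mem_insert_self _ _))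
    refine ⟨σ.trans τ, fun π hπ => ?_⟩
    obtain ⟨hπ0, hπ', -⟩ := root_symm hm hd hq hπ
    have hyy : (q : L) / π + q / (q / π) = π + q / π := by
      rw [div_div_cancel₀ hq0]; ring
    constructor
    · intro hmem
      rw [AlgEquiv.trans_apply]
      by_cases h1 : π + q / π ∈ Y
      · have h2 : π + q / π ≠ y := fun h => hy (h ▸ h1)
        rw [(hσ π hπ).1 h1]
        exact (hτ _ hπ').2 (by rw [hyy]; exact h2)
      · have h2 : π + q / π = y := (Finset.mem_insert.1 hmem).resolve_right h1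
        rw [(hσ π hπ).2 h1]
        exact (hτ _ hπ).1 h2
    · intro hmem
      rw [Finset.mem_insert, not_or] at hmem
      rw [AlgEquiv.trans_apply, (hσ π hπ).2 hmem.2]
      exact (hτ _ hπ).2 hmem.1

/-- A product of Frobenius eigenvalues without pairs is not divisible. -/
theorem no_pair_contra {p a g : ℕ} [hp : Fact p.Prime] (ha : 1 ≤ a) {h : ℤ[X]} (hm : h.Monic)
    (hd : h.natDegree = g) (hord : ¬ (p : ℤ) ∣ h.coeff 0)
    (hflip : ∀ y : L, (h.map (Int.castRingHom L)).IsRoot y → ∃ σ : L ≃ₐ[ℚ] L,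
      ∀ π : L, ((lift ((p ^ a : ℕ) : ℤ) g h).map (Int.castRingHom L)).IsRoot π →
        (π + ((p ^ a : ℕ) : L) / π = y → σ π = ((p ^ a : ℕ) : L) / π) ∧
        (π + ((p ^ a : ℕ) : L) / π ≠ y → σ π = π))
    (R A : List L)
    (hR : ∀ z ∈ R, ((lift ((p ^ a : ℕ) : ℤ) g h).map (Int.castRingHom L)).IsRoot z)
    (hR2 : ∀ z ∈ R, ((p ^ a : ℕ) : L) / z ∉ R)
    (hA : A = [] ∨ ∃ z, A = [z] ∧ SS (p ^ a) z) {s ν : ℕ} (hs : 0 < s) (hν : 0 < ν)
    {c : L} (hc : IsIntegral ℤ c)
    (heq : (R.prod * A.prod) ^ s = (((p ^ a : ℕ) : L) ^ ν) ^ s * c) : False := by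
  classical
  have hq : p ^ a ≠ 0 := pow_ne_zero _ hp.out.ne_zero
  have hq0 : ((p ^ a : ℕ) : L) ≠ 0 := by exact_mod_cast hq
  set q : L := ((p ^ a : ℕ) : L) with hqdef
  obtain ⟨Q, hQ, hpQ, -, -⟩ := exists_frob L p
  have hQp : Q.IsPrime := hQ.isPrime
  have hqQ : ((p ^ a : ℕ) : 𝓞 L) ∈ Q := by
    push_cast
    exact Ideal.pow_mem_of_mem _ hpQ _ (by omega)
  have hint0 : ∀ n : ℤ, (n : 𝓞 L) ∈ Q → (p : ℤ) ∣ n := by
    intro n hn
    by_contra hcon
    have hcop : IsCoprime (p : ℤ) n := by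
      rw [Int.isCoprime_iff_gcd_eq_one]
      exact (Nat.Prime.coprime_iff_not_dvd hp.out).2 (by
        intro h; exact hcon (Int.natCast_dvd.2 h))
    obtain ⟨u, v, huv⟩ := hcop
    apply hQ.ne_top
    rw [Ideal.eq_top_iff_one]
    have h1 := congrArg (fun z : ℤ => (z : 𝓞 L)) huv
    push_cast at h1
    rw [← h1]
    exact Q.add_mem (Q.mul_mem_left _ hpQ) (Q.mul_mem_left _ hn)
  let U : L → Prop := fun x => ∃ x' : 𝓞 L, (x' : L) = x ∧ x' ∉ Q
  have hU1 : U 1 := ⟨1, rfl, fun h => hQ.ne_top ((Ideal.eq_top_iff_one _).2 h)⟩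
  have hUmul : ∀ x y, U x → U y → U (x * y) := by
    rintro _ _ ⟨x, rfl, hx⟩ ⟨y, rfl, hy⟩
    exact ⟨x * y, rfl, fun h => (hQp.mem_or_mem h).elim hx hy⟩
  have hUpow : ∀ x n, U x → U (x ^ n) := by
    intro x n hx
    induction n with
    | zero => rw [pow_zero]; exact hU1
    | succ n ih => rw [pow_succ]; exact hUmul _ _ ih hx
  have hUnot : ∀ x : 𝓞 L, x ∈ Q → ¬ U (x : L) := by
    rintro x hx ⟨x', hx', hx'Q⟩
    rw [RingOfIntegers.coe_injective hx'] at hx'Q
    exact hx'Q hx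
  -- integrality of the roots
  have hPm : (lift ((p ^ a : ℕ) : ℤ) g h).Monic := (lift_monic _ _ _ hm hd).1
  have hint : ∀ x : L, ((lift ((p ^ a : ℕ) : ℤ) g h).map (Int.castRingHom L)).IsRoot x →
      ∃ x' : 𝓞 L, (x' : L) = x := by
    intro x hx
    have : IsIntegral ℤ x := by
      refine ⟨_, hPm, ?_⟩
      rw [IsRoot.def, eval_map] at hx
      have h0 : algebraMap ℤ L = Int.castRingHom L := RingHom.ext_int _ _
      rw [h0]; exact hx
    exact ⟨⟨x, this⟩, rfl⟩
  -- exactly one of `π` and `q / π` is a unit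
  have hone : ∀ x : L, ((lift ((p ^ a : ℕ) : ℤ) g h).map (Int.castRingHom L)).IsRoot x →
      ¬ U x → U (q / x) := by
    intro x hx hnU
    obtain ⟨hx0, hx', hy⟩ := root_symm hm hd hq hx
    obtain ⟨b, hb⟩ := hint _ hx
    obtain ⟨b', hb'⟩ := hint _ hx'
    refine ⟨b', hb', fun hb'Q => ?_⟩
    have hbQ : b ∈ Q := by
      by_contra hbQ
      exact hnU ⟨b, hb, hbQ⟩
    have hyL : ((b + b' : 𝓞 L) : L) = x + q / x := by
      rw [show ((b + b' : 𝓞 L) : L) = (b : L) + (b' : L) from rfl, hb, hb']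
    have hev : (h.map (Int.castRingHom (𝓞 L))).eval (b + b') = 0 := by
      apply RingOfIntegers.coe_injective
      have h1 : (h.map (Int.castRingHom L)) =
          (h.map (Int.castRingHom (𝓞 L))).map (algebraMap (𝓞 L) L) := by
        rw [Polynomial.map_map]; congr 1
      have h2 := hy.eq_zero
      rw [← hyL, h1] at h2
      have h3 := eval_map_apply (algebraMap (𝓞 L) L) (p := h.map (Int.castRingHom (𝓞 L))) (b + b')
      rw [map_zero]
      rw [← h2]
      exact h3.symm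
    have h4 : h.map (Int.castRingHom (𝓞 L)) = divX (h.map (Int.castRingHom (𝓞 L))) * X +
        C ((h.map (Int.castRingHom (𝓞 L))).coeff 0) := (divX_mul_X_add _).symm
    rw [h4, eval_add, eval_mul, eval_X, eval_C, coeff_map] at hev
    have h5 : ((h.coeff 0 : ℤ) : 𝓞 L) ∈ Q := by
      have h6 : ((h.coeff 0 : ℤ) : 𝓞 L) =
          -(eval (b + b') (divX (h.map (Int.castRingHom (𝓞 L)))) * (b + b')) := by
        have : (Int.castRingHom (𝓞 L)) (h.coeff 0) = ((h.coeff 0 : ℤ) : 𝓞 L) := rfl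
        rw [this] at hev
        exact eq_neg_of_add_eq_zero_right hev
      rw [h6]
      exact Q.neg_mem (Q.mul_mem_left _ (Q.add_mem hbQ hb'Q))
    exact hord (hint0 _ h5)
  -- the automorphism
  set Y : Finset L := ((R.filter fun z => ¬ U z).map fun z => z + q / z).toFinset with hYdef
  have hYmem : ∀ y ∈ Y, ∃ z ∈ R, ¬ U z ∧ z + q / z = y := by
    intro y hy
    rw [hYdef, List.mem_toFinset, List.mem_map] at hy
    obtain ⟨z, hz, hzy⟩ := hy
    rw [List.mem_filter] at hz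
    exact ⟨z, hz.1, by simpa using hz.2, hzy⟩
  obtain ⟨σ, hσ⟩ := multi_flip hq hm hd hflip Y (by
    intro y hy
    obtain ⟨z, hz, -, rfl⟩ := hYmem y hy
    exact (root_symm hm hd hq (hR z hz)).2.2)
  have hUσ : ∀ z ∈ R, U (σ z) := by
    intro z hz
    have hzr := hR z hz
    obtain ⟨hz0, -, -⟩ := root_symm hm hd hq hzr
    by_cases hUz : U z
    · have hnot : z + q / z ∉ Y := by
        intro hmem
        obtain ⟨w, hw, hwU, hwz⟩ := hYmem _ hmem
        obtain ⟨hw0, -, -⟩ := root_symm hm hd hq (hR w hw)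
        have h1 : (w - z) * (w - q / z) = 0 := by
          have h2 : (w - z) * (w - q / z) = w * ((w + q / w) - (z + q / z)) := by
            field_simp; ring
          rw [h2, hwz, sub_self, mul_zero]
        rcases mul_eq_zero.1 h1 with h2 | h2
        · rw [sub_eq_zero.1 h2] at hwU; exact hwU hUz
        · rw [sub_eq_zero.1 h2] at hw; exact hR2 z hz hw
      rw [(hσ z hzr).2 hnot]; exact hUz
    · have hmem : z + q / z ∈ Y := by
        rw [hYdef, List.mem_toFinset, List.mem_map]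
        exact ⟨z, by rw [List.mem_filter]; exact ⟨hz, by simpa using hUz⟩, rfl⟩
      rw [(hσ z hzr).1 hmem]; exact hone z hzr hUz
  have hUprod : U (σ R.prod) := by
    have : ∀ R' : List L, (∀ z ∈ R', U (σ z)) → U (σ R'.prod) := by
      intro R' hR'
      induction R' with
      | nil => rw [List.prod_nil, map_one]; exact hU1
      | cons z R' ih =>
        rw [List.prod_cons, map_mul]
        exact hUmul _ _ (hR' z (by simp)) (ih fun w hw => hR' w (by simp [hw]))
    exact this R hUσ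
  -- the supersingular part
  obtain ⟨t, e, ht, het, hAt⟩ : ∃ t e : ℕ, 0 < t ∧ e ≤ t ∧ (σ A.prod) ^ (2 * t) = q ^ e := by
    rcases hA with rfl | ⟨z, rfl, t, ht, hz⟩
    · exact ⟨1, 0, one_pos, by omega, by simp⟩
    · refine ⟨t, t, ht, le_rfl, ?_⟩
      rw [List.prod_singleton, pow_mul, ← map_pow, ← map_pow, hz, map_pow, map_natCast]
  have hσeq := congrArg (fun x => (σ x) ^ (2 * t)) heq
  simp only [map_pow, map_mul] at hσeq
  have hσq : σ q = q := map_natCast σ _
  rw [hσq] at hσeq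
  have hfin : (σ R.prod) ^ (2 * t * s) = q ^ (2 * t * s * ν - e * s) * (σ c) ^ (2 * t) := by
    have h1 : (σ R.prod) ^ (2 * t * s) * q ^ (e * s) =
        q ^ (2 * t * s * ν) * (σ c) ^ (2 * t) := by
      calc (σ R.prod) ^ (2 * t * s) * q ^ (e * s)
          = (σ R.prod) ^ (2 * t * s) * ((σ A.prod) ^ (2 * t)) ^ s := by rw [hAt]; ring
        _ = ((σ R.prod * σ A.prod) ^ s) ^ (2 * t) := by ring
        _ = ((q ^ ν) ^ s * σ c) ^ (2 * t) := by rw [hσeq]
        _ = q ^ (2 * t * s * ν) * (σ c) ^ (2 * t) := by ring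
    have h2 : e * s ≤ 2 * t * s * ν := by
      calc e * s ≤ t * s := Nat.mul_le_mul_right _ het
        _ ≤ 2 * t * s * 1 := by nlinarith
        _ ≤ 2 * t * s * ν := Nat.mul_le_mul_left _ hν
    have h3 : q ^ (2 * t * s * ν) = q ^ (2 * t * s * ν - e * s) * q ^ (e * s) := by
      rw [← pow_add]; congr 1; omega
    rw [h3] at h1
    have h4 : q ^ (e * s) ≠ 0 := pow_ne_zero _ hq0
    apply mul_right_cancel₀ h4
    rw [h1]; ring
  have hUfin := hUpow _ (2 * t * s) hUprod
  rw [hfin] at hUfin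
  have hcint : IsIntegral ℤ ((σ c) ^ (2 * t)) := (hc.map (σ : L →+* L).toIntAlgHom).pow _
  have hpos : 2 * t * s * ν - e * s ≠ 0 := by
    have : e * s < 2 * t * s * ν := by
      calc e * s ≤ t * s := Nat.mul_le_mul_right _ het
        _ < 2 * t * s * 1 := by nlinarith [Nat.mul_pos ht hs]
        _ ≤ 2 * t * s * ν := Nat.mul_le_mul_left _ hν
    omega
  refine hUnot (((p ^ a : ℕ) : 𝓞 L) ^ (2 * t * s * ν - e * s) * ⟨_, hcint⟩) ?_ ?_
  · exact Q.mul_mem_right _ (Ideal.pow_mem_of_mem _ hqQ _ (by omega))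
  · have : (((((p ^ a : ℕ) : 𝓞 L) ^ (2 * t * s * ν - e * s) * ⟨_, hcint⟩ : 𝓞 L)) : L) =
        q ^ (2 * t * s * ν - e * s) * (σ c) ^ (2 * t) := by
      simp [hqdef]
    rw [this]; exact hUfin

end key

end Pool.Agent.X296.Count
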