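import Pool.Agent.X296.Count.Gtc

/-!
# The generalized Tate conjecture from flips, II
-/

open Polynomial NumberField

namespace Pool.Agent.X296.Count

open Pool.Agent.W518.DN Pool.Agent.W518.TC

section list

variable {L : Type} [Field L] [NumberField L] [IsGalois ℚ L]
  {Ω : Type*} [Field Ω] [CharZero Ω] {V : Type*} [AddCommGroup V] [Module Ω V]

theorem mono_mem_divisorial {p a g : ℕ} [hp : Fact p.Prime] (ha : 1 ≤ a) {h : ℤ[X]}
    (hm : h.Monic) (hd : h.natDegree = g) (hord : ¬ (p : ℤ) ∣ h.coeff 0)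
    (hflip : ∀ y : L, (h.map (Int.castRingHom L)).IsRoot y → ∃ σ : L ≃ₐ[ℚ] L,
      ∀ π : L, ((lift ((p ^ a : ℕ) : ℤ) g h).map (Int.castRingHom L)).IsRoot π →
        (π + ((p ^ a : ℕ) : L) / π = y → σ π = ((p ^ a : ℕ) : L) / π) ∧
        (π + ((p ^ a : ℕ) : L) / π ≠ y → σ π = π))
    (ψ : L →+* Ω) (F : Module.End Ω V) (ν : ℕ) :
    ∀ l : List (L × V), (∀ e ∈ l, F e.2 = ψ e.1 • e.2) →
      (∀ e ∈ l, ((lift ((p ^ a : ℕ) : ℤ) g h).map (Int.castRingHom L)).IsRoot e.1 ∨
        (e.1 ≠ 0 ∧ SS (p ^ a) e.1)) →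
      ∀ (s : ℕ) (c : L), 0 < s → IsIntegral ℤ c →
        (l.map Prod.fst).prod ^ s = (((p ^ a : ℕ) : L) ^ ν) ^ s * c →
          mono (Ω := Ω) (l.map Prod.snd) ∈ divisorial F (p ^ a) l.length ν := by
  classical
  have hq : p ^ a ≠ 0 := pow_ne_zero _ hp.out.ne_zero
  have hq0 : ((p ^ a : ℕ) : L) ≠ 0 := by exact_mod_cast hq
  induction ν with
  | zero =>
    intro l _ _ s c _ _ _
    have := mono_mem_pow (Ω := Ω) (l.map Prod.snd)
    rw [List.length_map] at this
    exact divisorial_zero F _ _ _ this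
  | succ ν ih =>
    intro l hF hl s c hs hc heq
    have key : ∃ e e' l', l.Perm (e :: e' :: l') ∧
        ∃ t : ℕ, 0 < t ∧ (e.1 * e'.1) ^ t = ((p ^ a : ℕ) : L) ^ t := by
      by_contra hcon
      push Not at hcon
      set l1 := l.filter fun e => ¬ SS (p ^ a) e.1 with hl1
      set l2 := l.filter fun e => SS (p ^ a) e.1 with hl2
      have hperm : l.Perm (l2 ++ l1) := by
        have := List.filter_append_perm (fun e : L × V => decide (SS (p ^ a) e.1)) l
        refine this.symm.trans (List.Perm.of_eq ?_)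
        rw [hl1, hl2]
        congr 1
        refine List.filter_congr fun x _ => ?_
        simp
      have hmem1 : ∀ e ∈ l1, e ∈ l ∧ ¬ SS (p ^ a) e.1 := by
        intro e he
        rw [hl1, List.mem_filter] at he
        simpa using he
      refine no_pair_contra (L := L) ha hm hd hord hflip (l1.map Prod.fst) (l2.map Prod.fst) ?_ ?_ ?_
        hs (Nat.succ_pos ν) hc ?_
      · intro z hz
        obtain ⟨e, he, rfl⟩ := List.mem_map.1 hz
        obtain ⟨h1, h2⟩ := hmem1 e he
        rcases hl e h1 with h3 | h3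
        · exact h3
        · exact absurd h3.2 h2
      · intro z hz hz'
        obtain ⟨e, he, rfl⟩ := List.mem_map.1 hz
        obtain ⟨e', he', hee'⟩ := List.mem_map.1 hz'
        obtain ⟨h1, h2⟩ := hmem1 e he
        obtain ⟨h1', h2'⟩ := hmem1 e' he'
        have he0 : e.1 ≠ 0 := by
          rcases hl e h1 with h3 | h3
          · exact (root_symm hm hd hq h3).1
          · exact h3.1
        have hne : e' ≠ e := by
          rintro rfl
          exact h2 (SS.of_eq he0 hee'.symm)
        have hp1 : l.Perm (e :: l.erase e) := List.perm_cons_erase h1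
        have he'' : e' ∈ l.erase e := (List.mem_erase_of_ne hne).2 h1'
        have hp2 : (l.erase e).Perm (e' :: (l.erase e).erase e') := List.perm_cons_erase he''
        refine hcon e e' _ (hp1.trans (hp2.cons e)) 1 one_pos ?_
        rw [hee', mul_div_cancel₀ _ he0]
      · rcases hl2' : l2 with _ | ⟨e, l3⟩
        · left; rfl
        · rcases l3 with _ | ⟨e', l4⟩
          · right
            refine ⟨e.1, rfl, ?_⟩
            have : e ∈ l2 := by rw [hl2']; simp
            rw [hl2, List.mem_filter] at this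
            simpa using this.2
          · exfalso
            have h1 : e ∈ l2 := by rw [hl2']; simp
            have h2 : e' ∈ l2 := by rw [hl2']; simp
            rw [hl2, List.mem_filter] at h1 h2
            obtain ⟨t, ht, h3⟩ := SS.mul (q := p ^ a) (a := e.1) (b := e'.1)
              (by simpa using h1.2) (by simpa using h2.2)
            rw [hl2'] at hperm
            exact hcon e e' (l4 ++ l1) hperm t ht h3
      · have h1 : (l.map Prod.fst).prod = (l1.map Prod.fst).prod * (l2.map Prod.fst).prod := by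
          have h2 := (hperm.map Prod.fst).prod_eq
          rw [h2, List.map_append, List.prod_append, mul_comm]
        rw [← h1]; exact heq
    obtain ⟨e, e', l', hperm, t, ht, hpair⟩ := key
    have hmem : ∀ x ∈ l', x ∈ l := fun x hx => hperm.mem_iff.2 (by simp [hx])
    have hlen : l.length = l'.length + 2 := by
      have := hperm.length_eq
      simpa using this
    have hprod : (l.map Prod.fst).prod = (e.1 * e'.1) * (l'.map Prod.fst).prod := by
      have h2 := (hperm.map Prod.fst).prod_eq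
      rw [h2, List.map_cons, List.map_cons, List.prod_cons, List.prod_cons, mul_assoc]
    have hIH := ih l' (fun x hx => hF x (hmem x hx)) (fun x hx => hl x (hmem x hx)) (s * t) (c ^ t)
      (Nat.mul_pos hs ht) (hc.pow t) (by
        have h1 : ((p ^ a : ℕ) : L) ^ (s * t) ≠ 0 := pow_ne_zero _ hq0
        apply mul_left_cancel₀ h1
        calc ((p ^ a : ℕ) : L) ^ (s * t) * (l'.map Prod.fst).prod ^ (s * t)
            = ((e.1 * e'.1) ^ t) ^ s * (l'.map Prod.fst).prod ^ (s * t) := by rw [hpair]; ring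
          _ = ((l.map Prod.fst).prod ^ s) ^ t := by rw [hprod]; ring
          _ = ((((p ^ a : ℕ) : L) ^ (ν + 1)) ^ s * c) ^ t := by rw [heq]
          _ = _ := by ring)
    obtain ⟨ε, hε⟩ := mono_perm (Ω := Ω) (hperm.map Prod.snd)
    rw [hε]
    apply Submodule.smul_mem
    have h5 : mono (Ω := Ω) ((e :: e' :: l').map Prod.snd)
        = (ExteriorAlgebra.ι Ω e.2 * ExteriorAlgebra.ι Ω e'.2) * mono (l'.map Prod.snd) := by
      simp [mono, mul_assoc]
    rw [h5, hlen]
    refine divisorial_mul F _ _ _ _ _ ?_ hIH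
    refine two_mem_tate F _ (hF e (hperm.mem_iff.2 (by simp))) (hF e' (hperm.mem_iff.2 (by simp)))
      ⟨t, ht, ?_⟩
    rw [← map_mul, ← map_pow, hpair, map_pow, map_natCast]

end list

/-- Let `A` be an abelian variety over the field with `p ^ a` elements with Frobenius polynomial
`P`. For all `n` and every supersingular abelian variety `B` over this field, all degrees `i` and
all `ν`: every class in `H ^ i (A ^ n × B)` which is an eigenclass of a power `F ^ s`, `s > 0`, of
Frobenius, with an eigenvalue which is an algebraic integer times `(p ^ a) ^ (ν s)`, is a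
combination of products of `ν` divisor classes and classes of degree `i - 2 ν`. -/
def GTCGenerated (p : ℕ) [Fact p.Prime] (a : ℕ) (P : ℤ[X]) : Prop :=
  ∀ (n : ℕ) (T : ℤ[X]), IsSupersingular p a T →
    ∀ (Ω : Type) [Field Ω] [IsAlgClosed Ω] [CharZero Ω]
      (V : Type) [AddCommGroup V] [Module Ω V] (F : Module.End Ω V),
      IsH1 (T * P ^ n) V F → ∀ (i ν : ℕ) (x : ExteriorAlgebra Ω V),
        IsConiveauClass F (p ^ a) i ν x → x ∈ divisorial F (p ^ a) i ν

theorem gtc_of_flip (p : ℕ) [hp : Fact p.Prime] (a g : ℕ) (ha : 1 ≤ a) (h : ℤ[X]) (hm : h.Monic)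
    (hd : h.natDegree = g) (hirr : Irreducible (h.map (Int.castRingHom ℚ)))
    (hord : ¬ (p : ℤ) ∣ h.coeff 0)
    (l : ℕ) [hl : Fact l.Prime] (hl2 : l ≠ 2) (hlq : ¬ l ∣ p ^ a) (r : ℤ)
    (hr : (l : ℤ) ^ 2 ∣ r ^ 2 - 4 * (p ^ a : ℕ)) (h0 : (l : ℤ) ∣ h.eval r)
    (h1 : ¬ (l : ℤ) ^ 2 ∣ h.eval r) (hsep : (h.map (Int.castRingHom (ZMod l))).Separable)
    (hnr : ¬ (l : ℤ) ∣ h.eval (-r)) :
    GTCGenerated p a (lift ((p ^ a : ℕ) : ℤ) g h) := by
  classical
  have hq : p ^ a ≠ 0 := pow_ne_zero _ hp.out.ne_zero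
  have hPm : (lift ((p ^ a : ℕ) : ℤ) g h).Monic := (lift_monic _ _ _ hm hd).1
  intro n T hT Ω _ _ _ V _ _ F hV i ν x hx
  set f : ℤ[X] := T * (lift ((p ^ a : ℕ) : ℤ) g h * h) with hf
  have hfm : f.Monic := hT.frob.monic.mul (hPm.mul hm)
  set PQ : ℚ[X] := f.map (Int.castRingHom ℚ) with hPQ
  have hLN : NumberField PQ.SplittingField :=
    { to_charZero := charZero_of_injective_algebraMap (algebraMap ℚ PQ.SplittingField).injective
      to_finiteDimensional := inferInstance }
  have hsf : IsSplittingField ℚ PQ.SplittingField PQ := Polynomial.IsSplittingField.splittingField PQ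
  have hnormal : Normal ℚ PQ.SplittingField := Normal.of_isSplittingField PQ
  have hGal : IsGalois ℚ PQ.SplittingField := ⟨⟩
  have hsplit : (f.map (Int.castRingHom PQ.SplittingField)).Splits := by
    have h1 := SplittingField.splits PQ
    convert h1 using 1
    rw [hPQ, Polynomial.map_map]; congr 1
  have hf0 : f.map (Int.castRingHom PQ.SplittingField) ≠ 0 := (hfm.map _).ne_zero
  have hTs : (T.map (Int.castRingHom PQ.SplittingField)).Splits :=
    hsplit.of_dvd hf0 (Polynomial.map_dvd _ (dvd_mul_right _ _))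
  have hsub : (((lift ((p ^ a : ℕ) : ℤ) g h) * h).map
      (Int.castRingHom PQ.SplittingField)).Splits :=
    hsplit.of_dvd hf0 (Polynomial.map_dvd _ (dvd_mul_left _ _))
  have hPs : ((lift ((p ^ a : ℕ) : ℤ) g h).map (Int.castRingHom PQ.SplittingField)).Splits :=
    hsub.of_dvd ((hPm.mul hm).map _).ne_zero (Polynomial.map_dvd _ (dvd_mul_right _ _))
  have hhs : (h.map (Int.castRingHom PQ.SplittingField)).Splits :=
    hsub.of_dvd ((hPm.mul hm).map _).ne_zero (Polynomial.map_dvd _ (dvd_mul_left _ _))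
  have hTss : ∀ z : PQ.SplittingField, (T.map (Int.castRingHom PQ.SplittingField)).IsRoot z →
      z ≠ 0 ∧ SS (p ^ a) z := by
    intro z hz
    obtain ⟨φ⟩ : Nonempty (PQ.SplittingField →+* ℂ) := inferInstance
    have h1 : T.map (Int.castRingHom ℂ) = (T.map (Int.castRingHom PQ.SplittingField)).map φ := by
      rw [Polynomial.map_map]; congr 1; exact RingHom.ext_int _ _
    have h2 : (T.map (Int.castRingHom ℂ)).IsRoot (φ z) := by rw [h1]; exact hz.map
    obtain ⟨t, ht, h3⟩ := hT.root _ h2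
    have h4 : (z ^ 2) ^ t = (((p ^ a : ℕ) : ℕ) : PQ.SplittingField) ^ t := by
      apply φ.injective
      rw [map_pow, map_pow, h3, map_pow, map_natCast]; push_cast; rfl
    refine ⟨?_, t, ht, h4⟩
    rintro rfl
    rw [zero_pow two_ne_zero, zero_pow ht.ne'] at h4
    exact pow_ne_zero t (by exact_mod_cast hq) h4.symm
  obtain ⟨σ, y0, hy0, hσ⟩ := exists_flip_ram (L := PQ.SplittingField) (p ^ a) hq g h hm hd hhs hPs
    l hl2 hlq r hr h0 h1 hsep hnr
  have hflip := flip_at (L := PQ.SplittingField) hm hirr σ y0 hy0 hσ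
  -- the eigenbasis
  have := hV.fin
  let ψ : PQ.SplittingField →ₐ[ℚ] Ω := IsAlgClosed.lift
  have hψinj : Function.Injective ψ := ψ.toRingHom.injective
  have hψq : ψ ((p ^ a : ℕ) : PQ.SplittingField) = ((p ^ a : ℕ) : Ω) := map_natCast ψ _
  obtain ⟨b, μb, hμb, hμr⟩ := exists_eigenbasis F hV.semisimple
  obtain ⟨hxV, s, c, hs, hc, hxF⟩ := hx
  rw [hV.charpoly] at hμr
  have heig : ∀ j, ∃ π : PQ.SplittingField,
      (((lift ((p ^ a : ℕ) : ℤ) g h).map (Int.castRingHom PQ.SplittingField)).IsRoot π ∨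
      (π ≠ 0 ∧ SS (p ^ a) π)) ∧ ψ π = μb j := by
    intro j
    have h1 : μb j ∈ ((T * (lift ((p ^ a : ℕ) : ℤ) g h) ^ n).map (Int.castRingHom Ω)).roots := by
      rw [← hμr]; exact Multiset.mem_map_of_mem _ (Finset.mem_univ j)
    have h2 := (mem_roots'.1 h1).2
    rw [Polynomial.map_mul, IsRoot.def, eval_mul, mul_eq_zero] at h2
    rcases h2 with h2 | h2
    · have h4 : T.map (Int.castRingHom Ω) =
          (T.map (Int.castRingHom PQ.SplittingField)).map (ψ : PQ.SplittingField →+* Ω) := by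
        rw [Polynomial.map_map]; congr 1; exact RingHom.ext_int _ _
      have h5 : μb j ∈ ((T.map (Int.castRingHom PQ.SplittingField)).map
          (ψ : PQ.SplittingField →+* Ω)).roots := by
        rw [mem_roots ((hT.frob.monic.map _).map _).ne_zero, ← h4]; exact h2
      rw [hTs.roots_map] at h5
      obtain ⟨π, hπ, hπν⟩ := Multiset.mem_map.1 h5
      exact ⟨π, Or.inr (hTss π ((mem_roots (hT.frob.monic.map _).ne_zero).1 hπ)), hπν⟩
    rw [Polynomial.map_pow, eval_pow] at h2
    have h3 := eq_zero_of_pow_eq_zero h2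
    have h4 : (lift ((p ^ a : ℕ) : ℤ) g h).map (Int.castRingHom Ω)
        = ((lift ((p ^ a : ℕ) : ℤ) g h).map (Int.castRingHom PQ.SplittingField)).map
          (ψ : PQ.SplittingField →+* Ω) := by
      rw [Polynomial.map_map]; congr 1; exact RingHom.ext_int _ _
    have h5 : μb j ∈ (((lift ((p ^ a : ℕ) : ℤ) g h).map (Int.castRingHom PQ.SplittingField)).map
        (ψ : PQ.SplittingField →+* Ω)).roots := by
      rw [mem_roots ((hPm.map _).map _).ne_zero, ← h4]; exact h3
    rw [hPs.roots_map] at h5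
    obtain ⟨π, hπ, hπν⟩ := Multiset.mem_map.1 h5
    exact ⟨π, Or.inl ((mem_roots (hPm.map _).ne_zero).1 hπ), hπν⟩
  have hspan := tate_span F (Set.range b) b.span_eq (by
    rintro _ ⟨j, rfl⟩; exact ⟨μb j, hμb j⟩) i s _ x hxV hxF
  refine Submodule.span_le.2 ?_ hspan
  rintro t ⟨v, μ, hvS, hvF, hμ, rfl⟩
  rw [SetLike.mem_coe]
  have hex : ∀ k, ∃ π : PQ.SplittingField,
      (((lift ((p ^ a : ℕ) : ℤ) g h).map (Int.castRingHom PQ.SplittingField)).IsRoot π ∨
      (π ≠ 0 ∧ SS (p ^ a) π)) ∧ ψ π = μ k := by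
    intro k
    obtain ⟨j, hj⟩ := hvS k
    obtain ⟨π, hπ, hπν⟩ := heig j
    refine ⟨π, hπ, ?_⟩
    have h1 := hvF k
    rw [← hj, hμb j] at h1
    have h2 := smul_left_injective Ω (b.ne_zero j) h1
    rw [hπν]; exact h2
  choose π hπ hπμ using hex
  set lst : List (PQ.SplittingField × V) := List.ofFn fun k => (π k, v k) with hlst
  have hq0 : ((p ^ a : ℕ) : PQ.SplittingField) ≠ 0 := by exact_mod_cast hq
  have hqΩ : ((p ^ a : ℕ) : Ω) ≠ 0 := by exact_mod_cast hq
  have hprodψ : ψ ((lst.map Prod.fst).prod) = ∏ k, μ k := by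
    rw [hlst, List.map_ofFn, List.prod_ofFn, map_prod]
    exact Finset.prod_congr rfl fun k _ => hπμ k
  set c' : PQ.SplittingField := (lst.map Prod.fst).prod ^ s /
    (((p ^ a : ℕ) : PQ.SplittingField) ^ ν) ^ s with hc'
  have hψc : ψ c' = c := by
    rw [hc', map_div₀, map_pow, map_pow, map_pow, hψq, hprodψ, hμ]
    have h1 : (((p ^ a : ℕ) : Ω) ^ ν) ^ s ≠ 0 := pow_ne_zero _ (pow_ne_zero _ hqΩ)
    rw [mul_div_cancel_left₀ _ h1]
  have hc'int : IsIntegral ℤ c' := by
    have h1 : IsIntegral ℤ ((ψ : PQ.SplittingField →+* Ω).toIntAlgHom c') := by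
      change IsIntegral ℤ (ψ c')
      rw [hψc]; exact hc
    exact (isIntegral_algHom_iff ((ψ : PQ.SplittingField →+* Ω).toIntAlgHom) hψinj).1 h1
  have hmain := mono_mem_divisorial (L := PQ.SplittingField) (Ω := Ω) ha hm hd hord hflip
    (ψ : PQ.SplittingField →+* Ω) F ν lst (by
      intro e he
      obtain ⟨k, rfl⟩ := (List.mem_ofFn' _ _).1 he
      change F (v k) = ψ (π k) • v k
      rw [hπμ k]; exact hvF k) (by
      intro e he
      obtain ⟨k, rfl⟩ := (List.mem_ofFn' _ _).1 he
      exact hπ k) s c' hs hc'int (by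
      have h1 : (((p ^ a : ℕ) : PQ.SplittingField) ^ ν) ^ s ≠ 0 :=
        pow_ne_zero _ (pow_ne_zero _ hq0)
      rw [hc', mul_div_cancel₀ _ h1])
  have h2 : lst.map Prod.snd = List.ofFn v := by
    rw [hlst, List.map_ofFn]; rfl
  have h3 : lst.length = i := by rw [hlst, List.length_ofFn]
  rw [h2, h3] at hmain
  exact hmain

end Pool.Agent.X296.Count
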