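import Pool.Agent.W518.DN.Final1

/-!
# Local conditions forcing irreducibility
-/

open Polynomial

namespace Pool.Agent.X296.Count

open Pool.Agent.W518.DN Pool.Agent.W518.TC

/-- A generalized Eisenstein criterion. -/
theorem eis_factor {l : ℕ} [hl : Fact l.Prime] {h u v : ℤ[X]} {m : ℕ} (huv : u * v = h)
    (hu : u.Monic) (hv : v.Monic) (hc : ∀ i < m, (l : ℤ) ∣ h.coeff i)
    (h0 : ¬ (l : ℤ) ^ 2 ∣ h.coeff 0) : m ≤ u.natDegree ∨ m ≤ v.natDegree := by
  have key : ∀ u v : ℤ[X], u * v = h → u.Monic → v.Monic → ¬ (l : ℤ) ∣ u.coeff 0 →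
      m ≤ v.natDegree := by
    intro u v huv hu hv hu0
    have h1 : (X : (ZMod l)[X]) ^ m ∣ h.map (Int.castRingHom (ZMod l)) := by
      rw [X_pow_dvd_iff]
      intro i hi
      rw [coeff_map]
      simpa using (ZMod.intCast_zmod_eq_zero_iff_dvd _ _).2 (hc i hi)
    have h2 : ¬ (X : (ZMod l)[X]) ∣ u.map (Int.castRingHom (ZMod l)) := by
      rw [X_dvd_iff, coeff_map]
      intro h3
      exact hu0 ((ZMod.intCast_zmod_eq_zero_iff_dvd _ _).1 (by simpa using h3))
    rw [← huv, Polynomial.map_mul] at h1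
    have h3 := prime_X.pow_dvd_of_dvd_mul_left m h2 h1
    have h4 := natDegree_le_of_dvd h3 (hv.map _).ne_zero
    rw [natDegree_X_pow, hv.natDegree_map] at h4
    exact h4
  by_cases h1 : (l : ℤ) ∣ u.coeff 0
  · by_cases h2 : (l : ℤ) ∣ v.coeff 0
    · exfalso
      apply h0
      rw [← huv, mul_coeff_zero, pow_two]
      exact mul_dvd_mul h1 h2
    · left
      exact key v u (by rw [mul_comm]; exact huv) hv hu h2
  · right
    exact key u v huv hu hv h1

/-- No factors of small degree. -/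
theorem no_small_factor {l k : ℕ} [hl : Fact l.Prime] {h u : ℤ[X]} {S : (ZMod l)[X]}
    (hS : h.map (Int.castRingHom (ZMod l)) = 1 + (X ^ (l ^ k.factorial) - X) * S)
    (hu : u.Monic) (huh : u ∣ h) (hk : u.natDegree ≤ k) : u.natDegree = 0 := by
  by_contra hu0
  have hum : (u.map (Int.castRingHom (ZMod l))).Monic := hu.map _
  have hud : (u.map (Int.castRingHom (ZMod l))).natDegree = u.natDegree := hu.natDegree_map _
  have hunit : ¬ IsUnit (u.map (Int.castRingHom (ZMod l))) := by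
    intro h1
    have := natDegree_eq_zero_of_isUnit h1
    omega
  obtain ⟨w, hw, hwu⟩ := WfDvdMonoid.exists_irreducible_factor hunit hum.ne_zero
  haveI : Fact (Irreducible w) := ⟨hw⟩
  have hw0 : w ≠ 0 := hw.ne_zero
  have hwk : w.natDegree ≤ k := by
    have := natDegree_le_of_dvd hwu hum.ne_zero
    omega
  have hw1 : 0 < w.natDegree := hw.natDegree_pos
  haveI : Module.Finite (ZMod l) (AdjoinRoot w) := (AdjoinRoot.powerBasis hw0).finite
  haveI : Finite (AdjoinRoot w) := Module.finite_of_finite (ZMod l)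
  haveI : Fintype (AdjoinRoot w) := Fintype.ofFinite _
  have hcard : Fintype.card (AdjoinRoot w) = l ^ w.natDegree := by
    rw [Module.card_eq_pow_finrank (K := ZMod l), ZMod.card,
      (AdjoinRoot.powerBasis hw0).finrank, AdjoinRoot.powerBasis_dim]
  obtain ⟨n, hn⟩ := Nat.dvd_factorial hw1 hwk
  have hroot : (AdjoinRoot.root w) ^ (l ^ k.factorial) = AdjoinRoot.root w := by
    have h1 := FiniteField.pow_card_pow n (AdjoinRoot.root w)
    rw [hcard, ← pow_mul, ← hn] at h1
    exact h1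
  have h1 : aeval (AdjoinRoot.root w) (h.map (Int.castRingHom (ZMod l))) = 0 := by
    obtain ⟨v, hv⟩ := hwu.trans (Polynomial.map_dvd (Int.castRingHom (ZMod l)) huh)
    rw [hv, map_mul]
    have : aeval (AdjoinRoot.root w) w = 0 := by
      rw [AdjoinRoot.aeval_eq, AdjoinRoot.mk_self]
    rw [this, zero_mul]
  rw [hS] at h1
  simp only [map_add, map_one, map_mul, map_sub, map_pow, aeval_X] at h1
  rw [hroot, sub_self, zero_mul, add_zero] at h1
  exact one_ne_zero h1

theorem irreducible_of_local {g m k l1 l3 : ℕ} [Fact l1.Prime] [Fact l3.Prime] {h : ℤ[X]}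
    (hm : h.Monic) (hd : h.natDegree = g) (hg : 1 ≤ g) (hgm : g ≤ m + k)
    (hc : ∀ i < m, (l1 : ℤ) ∣ h.coeff i) (h0 : ¬ (l1 : ℤ) ^ 2 ∣ h.coeff 0)
    {S : (ZMod l3)[X]}
    (hS : h.map (Int.castRingHom (ZMod l3)) = 1 + (X ^ (l3 ^ k.factorial) - X) * S) :
    Irreducible h := by
  rw [hm.irreducible_iff_natDegree]
  refine ⟨?_, ?_⟩
  · rintro rfl
    rw [natDegree_one] at hd
    omega
  · intro u v hu hv huv
    have h1 : u.natDegree + v.natDegree = g := by
      rw [← hd, ← huv, hu.natDegree_mul hv]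
    rcases eis_factor huv hu hv hc h0 with h2 | h2
    · right
      exact no_small_factor hS hv ⟨u, by rw [← huv, mul_comm]⟩ (by omega)
    · left
      exact no_small_factor hS hu ⟨v, huv.symm⟩ (by omega)

/-- The reciprocal polynomial attached to an irreducible totally real polynomial is
irreducible. -/
theorem lift_irreducible {p a g : ℕ} [hp : Fact p.Prime] {h : ℤ[X]} (hm : h.Monic)
    (hd : h.natDegree = g) (hg : 3 ≤ g) (hirr : Irreducible (h.map (Int.castRingHom ℚ)))
    (hF : IsFrobPoly p a (lift ((p ^ a : ℕ) : ℤ) g h)) :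
    Irreducible (lift ((p ^ a : ℕ) : ℤ) g h) := by
  have hq : p ^ a ≠ 0 := pow_ne_zero _ hp.out.ne_zero
  have hPm : (lift ((p ^ a : ℕ) : ℤ) g h).Monic := (lift_monic _ _ _ hm hd).1
  have hPd : (lift ((p ^ a : ℕ) : ℤ) g h).natDegree = 2 * g := (lift_monic _ _ _ hm hd).2
  rw [IsPrimitive.Int.irreducible_iff_irreducible_map_cast hPm.isPrimitive]
  obtain ⟨z, hz⟩ := IsAlgClosed.exists_root
    ((lift ((p ^ a : ℕ) : ℤ) g h).map (Int.castRingHom ℂ)) (by
      rw [degree_eq_natDegree (hPm.map _).ne_zero, hPm.natDegree_map, hPd]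
      exact_mod_cast (by omega))
  obtain ⟨hz0, -, hy⟩ := root_symm hm hd hq hz
  have hnorm := hF.weil z hz
  set y : ℂ := z + ((p ^ a : ℕ) : ℂ) / z with hydef
  have hconj : ((p ^ a : ℕ) : ℂ) / z = (starRingEnd ℂ) z := by
    rw [div_eq_iff hz0, mul_comm, Complex.mul_conj', ← Complex.ofReal_pow, hnorm]
    push_cast; rfl
  have hyreal : y = ((2 * z.re : ℝ) : ℂ) := by
    rw [hydef, hconj, Complex.add_conj]
  have hzint : IsIntegral ℚ z := by
    refine ⟨(lift ((p ^ a : ℕ) : ℤ) g h).map (Int.castRingHom ℚ), hPm.map _, ?_⟩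
    rw [← aeval_def, ← eval_map_algebraMap, Polynomial.map_map]
    have : (algebraMap ℚ ℂ).comp (Int.castRingHom ℚ) = Int.castRingHom ℂ := RingHom.ext_int _ _
    rw [this]; exact hz
  have hyaev : aeval y (h.map (Int.castRingHom ℚ)) = 0 := by
    rw [← eval_map_algebraMap, Polynomial.map_map]
    have : (algebraMap ℚ ℂ).comp (Int.castRingHom ℚ) = Int.castRingHom ℂ := RingHom.ext_int _ _
    rw [this]; exact hy
  have hmin : minpoly ℚ y = h.map (Int.castRingHom ℚ) :=
    (minpoly.eq_of_irreducible_of_monic hirr hyaev (hm.map _)).symm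
  have hyint : IsIntegral ℚ y := ⟨_, hm.map _, by rw [← aeval_def]; exact hyaev⟩
  have hzaev : aeval z ((lift ((p ^ a : ℕ) : ℤ) g h).map (Int.castRingHom ℚ)) = 0 := by
    rw [← eval_map_algebraMap, Polynomial.map_map]
    have : (algebraMap ℚ ℂ).comp (Int.castRingHom ℚ) = Int.castRingHom ℂ := RingHom.ext_int _ _
    rw [this]; exact hz
  have hdvd : minpoly ℚ z ∣ (lift ((p ^ a : ℕ) : ℤ) g h).map (Int.castRingHom ℚ) :=
    minpoly.dvd _ _ hzaev
  open IntermediateField in
  have hle : ℚ⟮y⟯ ≤ ℚ⟮z⟯ := by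
    rw [adjoin_simple_le_iff]
    exact add_mem (mem_adjoin_simple_self ℚ z)
      (div_mem (by simpa using (ℚ⟮z⟯).algebraMap_mem ((p ^ a : ℕ) : ℚ))
        (mem_adjoin_simple_self ℚ z))
  have hfy : Module.finrank ℚ (IntermediateField.adjoin ℚ {y}) = g := by
    rw [IntermediateField.adjoin.finrank hyint, hmin, hm.natDegree_map, hd]
  have hfz : Module.finrank ℚ (IntermediateField.adjoin ℚ {z}) = (minpoly ℚ z).natDegree :=
    IntermediateField.adjoin.finrank hzint
  have hdiv := IntermediateField.finrank_dvd_of_le_right hle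
  rw [hfy, hfz] at hdiv
  have hne : (minpoly ℚ z).natDegree ≠ g := by
    intro hcon
    haveI : FiniteDimensional ℚ (IntermediateField.adjoin ℚ {z}) :=
      IntermediateField.adjoin.finiteDimensional hzint
    have heq := IntermediateField.eq_of_le_of_finrank_le hle (by rw [hfy, hfz, hcon])
    have hzy : z ∈ IntermediateField.adjoin ℚ {y} := by
      rw [heq]; exact IntermediateField.mem_adjoin_simple_self ℚ z
    have hR : IntermediateField.adjoin ℚ {y} ≤
        (IsScalarTower.toAlgHom ℚ ℝ ℂ).fieldRange := by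
      rw [IntermediateField.adjoin_simple_le_iff]
      exact ⟨2 * z.re, by rw [hyreal]; rfl⟩
    obtain ⟨x, hx⟩ := hR hzy
    have hx' : z = (x : ℂ) := by rw [← hx]; rfl
    have hx2 : z ^ 2 = ((p ^ a : ℕ) : ℂ) := by
      have h1 : (‖z‖ : ℝ) ^ 2 = x ^ 2 := by rw [hx', Complex.norm_real, Real.norm_eq_abs, sq_abs]
      rw [hnorm] at h1
      rw [hx']
      have h2 := congrArg (fun t : ℝ => (t : ℂ)) h1
      push_cast at h2 ⊢
      exact h2.symm
    have hy2 : y = 2 * z := by
      rw [hydef, ← hx2]; field_simp; ring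
    have hy4 : aeval y (X ^ 2 - C (4 * ((p ^ a : ℕ) : ℚ)) : ℚ[X]) = 0 := by
      simp only [map_sub, map_pow, aeval_X, aeval_C]
      rw [hy2]
      have : (algebraMap ℚ ℂ) (4 * ((p ^ a : ℕ) : ℚ)) = 4 * ((p ^ a : ℕ) : ℂ) := by
        rw [map_mul, map_natCast]; norm_num
      rw [this, ← hx2]; ring
    have h3 := minpoly.dvd ℚ y hy4
    have h4 : (X ^ 2 - C (4 * ((p ^ a : ℕ) : ℚ)) : ℚ[X]).natDegree = 2 := natDegree_X_pow_sub_C
    have h5 : (X ^ 2 - C (4 * ((p ^ a : ℕ) : ℚ)) : ℚ[X]) ≠ 0 := by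
      intro h6; rw [h6, natDegree_zero] at h4; omega
    have h6 := natDegree_le_of_dvd h3 h5
    rw [hmin, hm.natDegree_map, hd, h4] at h6
    omega
  have hle2 : (minpoly ℚ z).natDegree ≤ 2 * g := by
    have := natDegree_le_of_dvd hdvd (hPm.map _).ne_zero
    rwa [hPm.natDegree_map, hPd] at this
  have hpos : 0 < (minpoly ℚ z).natDegree := minpoly.natDegree_pos hzint
  obtain ⟨t, ht⟩ := hdiv
  have ht2 : t = 2 := by
    have h1 : t ≠ 0 := by rintro rfl; omega
    have h2 : t ≠ 1 := by rintro rfl; omega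
    have h3 : t ≤ 2 := by
      by_contra h4
      have : g * 3 ≤ g * t := Nat.mul_le_mul_left _ (by omega)
      omega
    omega
  rw [ht2] at ht
  have hfin : minpoly ℚ z = (lift ((p ^ a : ℕ) : ℤ) g h).map (Int.castRingHom ℚ) := by
    refine (eq_of_monic_of_dvd_of_natDegree_le (minpoly.monic hzint) (hPm.map _) hdvd ?_).symm
    rw [hPm.natDegree_map, hPd, ht]; omega
  rw [← hfin]
  exact minpoly.irreducible hzint

end Pool.Agent.X296.Count
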