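import Pool.Agent.X296.Count.Tate1

/-!
# Counting
-/

open Polynomial

namespace Pool.Agent.X296.Count

open Pool.Agent.W518.DN Pool.Agent.W518.TC

lemma telescope {g n : ℕ} (hn : n ≤ g) : ∑ j ∈ Finset.range n,
    1 / (((g - j : ℕ) : ℝ) * (((g - j : ℕ) : ℝ) + 1)) = 1 / (((g - n : ℕ) : ℝ) + 1) -
      1 / ((g : ℝ) + 1) := by
  induction n with
  | zero => simp
  | succ n ih =>
    rw [Finset.sum_range_succ, ih (by omega)]
    obtain ⟨m, hm⟩ : ∃ m, g - n = m + 1 := ⟨g - n - 1, by omega⟩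
    have hm2 : g - (n + 1) = m := by omega
    rw [hm, hm2]
    push_cast
    have h1 : (0 : ℝ) < m + 1 := by positivity
    have h2 : (0 : ℝ) < g + 1 := by positivity
    field_simp
    ring

lemma sum_sub (g n : ℕ) (hn : n ≤ g) :
    2 * ((∑ j ∈ Finset.range n, (g - j) : ℕ) : ℝ) = n * (2 * g - n + 1) := by
  induction n with
  | zero => simp
  | succ n ih =>
    rw [Finset.sum_range_succ, Nat.cast_add, mul_add, ih (by omega), Nat.cast_sub (by omega)]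
    push_cast
    ring

/-- The family of good polynomials is large. -/
theorem exists_many (p : ℕ) [hp : Fact p.Prime] (a : ℕ) (ha : 1 ≤ a) {Q : ℝ} (hQ1 : 1 < Q)
    (hQ : Q ^ 2 = (p : ℝ) ^ a) :
    ∃ N0 k g0 : ℕ, 0 < N0 ∧ ∀ g ≥ g0, k ≤ g ∧ ∃ S : Finset ℤ[X],
      (∀ P ∈ S, IsGoodPoly p a g P) ∧
      Q ^ (∑ j ∈ Finset.range (g - k), (g - j)) ≤ (2 * N0 * ((g : ℝ) + 1) ^ 2) ^ (g - k) * S.card := by
  classical
  obtain ⟨N0, k, g0, hN0, hgrow, hfam⟩ := exists_family p a ha hQ1 hQ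
  refine ⟨N0, k, g0, hN0, fun g hg => ?_⟩
  obtain ⟨hkg, c0, hc0⟩ := hfam g hg
  refine ⟨by omega, ?_⟩
  have hQ0 : 0 < Q := by linarith
  have hN0r : (0 : ℝ) < N0 := by exact_mod_cast hN0
  have hN1 : (1 : ℝ) ≤ N0 := by exact_mod_cast hN0
  set n := g - k with hn
  set M : ℕ → ℕ := fun i => ⌊Q ^ i / (N0 * ((i : ℝ) * (i + 1)))⌋₊ with hM
  set cOf : (Fin n → ℕ) → ℕ → ℤ := fun t j =>
    if hj : j < n then (c0 j) % N0 + N0 * (t ⟨j, hj⟩ : ℤ) else 0 with hcOf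
  set F : (Fin n → ℕ) → ℤ[X] := fun t =>
    lift ((p ^ a : ℕ) : ℤ) g (near ((p ^ a : ℕ) : ℤ) g n (cOf t)) with hF
  set D : Finset (Fin n → ℕ) := Fintype.piFinset (fun j : Fin n => Finset.range (M (g - j)))
    with hD
  have hq0 : p ^ a ≠ 0 := pow_ne_zero _ hp.out.ne_zero
  have hFinj : Function.Injective F := by
    intro t t' htt
    have h1 := lift_inj hq0 (near_natDegree _ (by omega) (Nat.sub_le _ _) _).le
      (near_natDegree _ (by omega) (Nat.sub_le _ _) _).le htt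
    have h2 := near_injective _ _ _ h1
    funext j
    have h3 := h2 j j.2
    simp only [hcOf, j.2, dif_pos] at h3
    have h4 : (N0 : ℤ) * (t j : ℤ) = N0 * (t' j : ℤ) := add_left_cancel h3
    have h5 : (N0 : ℤ) ≠ 0 := by exact_mod_cast hN0.ne'
    exact_mod_cast mul_left_cancel₀ h5 h4
  refine ⟨D.image F, ?_, ?_⟩
  · intro P hP
    obtain ⟨t, ht, rfl⟩ := Finset.mem_image.1 hP
    refine hc0 (cOf t) ?_ ?_
    · intro j hj
      simp only [hcOf, hj, dif_pos]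
      have h1 : (N0 : ℤ) ∣ (c0 j) % N0 - c0 j := ⟨-(c0 j / N0), by rw [Int.emod_def]; ring⟩
      have h2 : (c0 j) % N0 + N0 * (t ⟨j, hj⟩ : ℤ) - c0 j =
          ((c0 j) % N0 - c0 j) + N0 * (t ⟨j, hj⟩ : ℤ) := by ring
      rw [h2]
      exact dvd_add h1 (dvd_mul_right _ _)
    · have hterm : ∀ j ∈ Finset.range n, |(cOf t j : ℝ)| * Q ^ j ≤
          Q ^ g * (1 / (((g - j : ℕ) : ℝ) * (((g - j : ℕ) : ℝ) + 1))) := by
        intro j hj
        have hj' := Finset.mem_range.1 hj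
        have ht' := Fintype.mem_piFinset.1 ht ⟨j, hj'⟩
        rw [Finset.mem_range] at ht'
        simp only at ht'
        have h0 : 0 ≤ (c0 j) % N0 := Int.emod_nonneg _ (by exact_mod_cast hN0.ne')
        have h1 : (c0 j) % N0 < N0 := Int.emod_lt_of_pos _ (by exact_mod_cast hN0)
        have h2 : cOf t j = (c0 j) % N0 + N0 * (t ⟨j, hj'⟩ : ℤ) := by
          simp only [hcOf, hj', dif_pos]
        have h3 : 0 ≤ cOf t j := by rw [h2]; positivity
        have h4 : cOf t j ≤ N0 * (M (g - j) : ℤ) := by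
          rw [h2]
          have h5 : ((t ⟨j, hj'⟩ : ℤ) + 1) ≤ (M (g - j) : ℤ) := by exact_mod_cast ht'
          have h6 : (N0 : ℤ) * ((t ⟨j, hj'⟩ : ℤ) + 1) ≤ N0 * (M (g - j) : ℤ) :=
            mul_le_mul_of_nonneg_left h5 (by positivity)
          linarith
        have h7 : (cOf t j : ℝ) ≤ N0 * (M (g - j) : ℝ) := by exact_mod_cast h4
        have hi0 : 0 < g - j := by omega
        have hi1 : (0 : ℝ) < ((g - j : ℕ) : ℝ) := by exact_mod_cast hi0
        have h8 : (M (g - j) : ℝ) ≤ Q ^ (g - j) /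
            (N0 * (((g - j : ℕ) : ℝ) * (((g - j : ℕ) : ℝ) + 1))) :=
          Nat.floor_le (by positivity)
        have h9 : (N0 : ℝ) * (M (g - j) : ℝ) ≤ Q ^ (g - j) /
            (((g - j : ℕ) : ℝ) * (((g - j : ℕ) : ℝ) + 1)) := by
          have := mul_le_mul_of_nonneg_left h8 hN0r.le
          refine this.trans (le_of_eq ?_)
          field_simp
        rw [abs_of_nonneg (by exact_mod_cast h3)]
        calc (cOf t j : ℝ) * Q ^ j ≤ Q ^ (g - j) /
            (((g - j : ℕ) : ℝ) * (((g - j : ℕ) : ℝ) + 1)) * Q ^ j :=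
              mul_le_mul_of_nonneg_right (h7.trans h9) (by positivity)
          _ = Q ^ g * (1 / (((g - j : ℕ) : ℝ) * (((g - j : ℕ) : ℝ) + 1))) := by
              have : Q ^ g = Q ^ (g - j) * Q ^ j := by rw [← pow_add]; congr 1; omega
              rw [this]; ring
      refine (Finset.sum_le_sum hterm).trans_lt ?_
      rw [← Finset.mul_sum, telescope (by omega)]
      have h1 : (1 : ℝ) / (((g - n : ℕ) : ℝ) + 1) ≤ 1 := by
        rw [div_le_one (by positivity)]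
        have : (0 : ℝ) ≤ ((g - n : ℕ) : ℝ) := Nat.cast_nonneg _
        linarith
      have h2 : (0 : ℝ) < 1 / ((g : ℝ) + 1) := by positivity
      have h3 : 0 < Q ^ g := by positivity
      nlinarith
  · rw [Finset.card_image_of_injective _ hFinj, hD, Fintype.card_piFinset]
    simp only [Finset.card_range]
    rw [← Finset.prod_pow_eq_pow_sum, Nat.cast_prod]
    have e1 : (2 * (N0 : ℝ) * ((g : ℝ) + 1) ^ 2) ^ n =
        ∏ j : Fin n, (2 * (N0 : ℝ) * ((g : ℝ) + 1) ^ 2) := by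
      rw [Finset.prod_const, Finset.card_univ, Fintype.card_fin]
    rw [e1, ← Finset.prod_mul_distrib, ← Fin.prod_univ_eq_prod_range (fun j => Q ^ (g - j)) n]
    refine Finset.prod_le_prod (fun j _ => by positivity) fun j _ => ?_
    have hj := j.2
    have hi : k < g - j := by omega
    have hi1 : (1 : ℝ) ≤ ((g - (j : ℕ) : ℕ) : ℝ) := by exact_mod_cast (by omega : 1 ≤ g - (j : ℕ))
    have hile : ((g - (j : ℕ) : ℕ) : ℝ) ≤ g := by exact_mod_cast Nat.sub_le _ _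
    have h1 := hgrow _ hi
    set x : ℝ := ((g - (j : ℕ) : ℕ) : ℝ) with hx
    have hpos : (0 : ℝ) < N0 * (x * (x + 1)) := by positivity
    have h2 : 1 ≤ Q ^ (g - (j : ℕ)) / (N0 * (x * (x + 1))) := by
      rw [le_div_iff₀ hpos, one_mul]; exact h1
    have h3 := Nat.div_two_lt_floor h2
    have h4 : Q ^ (g - (j : ℕ)) / (N0 * (x * (x + 1))) ≤ 2 * (M (g - j) : ℝ) := by
      have : (M (g - (j : ℕ)) : ℝ) = (⌊Q ^ (g - (j : ℕ)) / (N0 * (x * (x + 1)))⌋₊ : ℝ) := rfl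
      rw [this]; linarith
    rw [div_le_iff₀ hpos] at h4
    refine h4.trans ?_
    have h5 : x * (x + 1) ≤ ((g : ℝ) + 1) ^ 2 := by nlinarith
    have h6 : (0 : ℝ) ≤ (M (g - (j : ℕ)) : ℝ) := Nat.cast_nonneg _
    calc 2 * (M (g - (j : ℕ)) : ℝ) * (N0 * (x * (x + 1)))
        = (2 * (M (g - (j : ℕ)) : ℝ) * N0) * (x * (x + 1)) := by ring
      _ ≤ (2 * (M (g - (j : ℕ)) : ℝ) * N0) * ((g : ℝ) + 1) ^ 2 :=
          mul_le_mul_of_nonneg_left h5 (by positivity)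
      _ = 2 * N0 * ((g : ℝ) + 1) ^ 2 * (M (g - (j : ℕ)) : ℝ) := by ring

/-- **Counting theorem.** -/
theorem main (p : ℕ) [hp : Fact p.Prime] (a : ℕ) (ha : 1 ≤ a) :
    ∃ (C : ℝ) (g0 : ℕ), ∀ g ≥ g0, ∃ S : Finset ℤ[X], (∀ P ∈ S, IsGoodPoly p a g P) ∧
      ((p : ℝ) ^ a) ^ ((g : ℝ) ^ 2 / 4 - C * (g * Real.log g)) ≤ S.card := by
  have hp1 : (1 : ℝ) < (p : ℝ) ^ a := by
    have : (1 : ℝ) < p := by exact_mod_cast hp.out.one_lt
    exact one_lt_pow₀ this (by omega)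
  set Q : ℝ := Real.sqrt ((p : ℝ) ^ a) with hQdef
  have hQ : Q ^ 2 = (p : ℝ) ^ a := Real.sq_sqrt (by positivity)
  have hQ1 : 1 < Q := by
    rw [hQdef]; exact (Real.lt_sqrt zero_le_one).2 (by simpa using hp1)
  have hQ0 : 0 < Q := by linarith
  obtain ⟨N0, k, g0, hN0, hmany⟩ := exists_many p a ha hQ1 hQ
  set L : ℝ := Real.log Q with hL
  have hL0 : 0 < L := Real.log_pos hQ1
  refine ⟨5 / (2 * L) + 1, max g0 (max (2 * N0 + 2) (k ^ 2 + k + 3)), fun g hg => ?_⟩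
  have hga : g0 ≤ g := (le_max_left _ _).trans hg
  have hgb : 2 * N0 + 2 ≤ g := (le_max_left _ _).trans ((le_max_right _ _).trans hg)
  have hgc : k ^ 2 + k + 3 ≤ g := (le_max_right _ _).trans ((le_max_right _ _).trans hg)
  obtain ⟨hkg, S, hS, hcard⟩ := hmany g hga
  refine ⟨S, hS, ?_⟩
  have hgb' : 2 * (N0 : ℝ) + 2 ≤ g := by exact_mod_cast hgb
  have hgc' : (k : ℝ) ^ 2 + k + 3 ≤ g := by exact_mod_cast hgc
  have hN1 : (1 : ℝ) ≤ N0 := by exact_mod_cast hN0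
  have hk0 : (0 : ℝ) ≤ k := Nat.cast_nonneg _
  have hg4 : (4 : ℝ) ≤ g := by linarith
  have hg0 : (0 : ℝ) < g := by linarith
  have hlog1 : 1 ≤ Real.log g := by
    have h1 : Real.exp 1 ≤ g := by
      have := Real.exp_one_lt_d9
      linarith
    rwa [Real.le_log_iff_exp_le hg0]
  set s : ℕ := ∑ j ∈ Finset.range (g - k), (g - j) with hs
  have hs1 : 4 * (s : ℝ) = 2 * ((g - k) * (g + k + 1)) := by
    have h1 := sum_sub g (g - k) (Nat.sub_le _ _)
    rw [← hs, Nat.cast_sub hkg] at h1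
    linear_combination 2 * h1
  have hB : 2 * (N0 : ℝ) * ((g : ℝ) + 1) ^ 2 ≤ (g : ℝ) ^ 5 := by
    have h1 : 2 * (N0 : ℝ) ≤ g := by linarith
    have h2 : ((g : ℝ) + 1) ^ 2 ≤ (g : ℝ) ^ 4 := by
      have h3 : (g : ℝ) + 1 ≤ (g : ℝ) ^ 2 := by nlinarith
      calc ((g : ℝ) + 1) ^ 2 ≤ ((g : ℝ) ^ 2) ^ 2 := pow_le_pow_left₀ (by linarith) h3 2
        _ = (g : ℝ) ^ 4 := by ring
    calc 2 * (N0 : ℝ) * ((g : ℝ) + 1) ^ 2 ≤ (g : ℝ) * (g : ℝ) ^ 4 :=
          mul_le_mul h1 h2 (by positivity) hg0.le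
      _ = (g : ℝ) ^ 5 := by ring
  have hB1 : (1 : ℝ) ≤ 2 * (N0 : ℝ) * ((g : ℝ) + 1) ^ 2 := by nlinarith
  have hBn : (2 * (N0 : ℝ) * ((g : ℝ) + 1) ^ 2) ^ (g - k) ≤
      Real.exp (5 * (g * Real.log g)) := by
    calc (2 * (N0 : ℝ) * ((g : ℝ) + 1) ^ 2) ^ (g - k)
        ≤ (2 * (N0 : ℝ) * ((g : ℝ) + 1) ^ 2) ^ g := pow_le_pow_right₀ hB1 (Nat.sub_le _ _)
      _ ≤ ((g : ℝ) ^ 5) ^ g := pow_le_pow_left₀ (by linarith) hB g
      _ = Real.exp (5 * (g * Real.log g)) := by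
          rw [← pow_mul, ← Real.exp_log (pow_pos hg0 (5 * g)), Real.log_pow]
          push_cast; ring_nf
  have hQexp : ∀ x : ℝ, ((p : ℝ) ^ a) ^ x = Real.exp (2 * L * x) := by
    intro x
    rw [← hQ, ← Real.rpow_natCast Q 2, ← Real.rpow_mul hQ0.le, Real.rpow_def_of_pos hQ0, ← hL]
    congr 1; push_cast; ring
  have hQs : Q ^ s = Real.exp (L * s) := by
    rw [← Real.rpow_natCast Q s, Real.rpow_def_of_pos hQ0]
  rw [hQexp]
  have h1 : Real.exp (L * s) ≤ Real.exp (5 * (g * Real.log g)) * S.card := by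
    rw [← hQs]
    exact hcard.trans (mul_le_mul_of_nonneg_right hBn (Nat.cast_nonneg _))
  have h2 : 2 * L * ((g : ℝ) ^ 2 / 4 - (5 / (2 * L) + 1) * (g * Real.log g)) ≤
      L * s - 5 * (g * Real.log g) := by
    have e1 : 2 * L * ((g : ℝ) ^ 2 / 4 - (5 / (2 * L) + 1) * (g * Real.log g)) =
        L * ((g : ℝ) ^ 2 / 2 - 2 * (g * Real.log g)) - 5 * (g * Real.log g) := by
      field_simp; ring
    rw [e1]
    have e2 : (g : ℝ) ^ 2 / 2 - 2 * (g * Real.log g) ≤ s := by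
      have h3 : (g : ℝ) * 1 ≤ g * Real.log g := mul_le_mul_of_nonneg_left hlog1 hg0.le
      nlinarith
    have e3 := mul_le_mul_of_nonneg_left e2 hL0.le
    linarith
  have h3 : Real.exp (L * s - 5 * (g * Real.log g)) ≤ S.card := by
    rw [Real.exp_sub, div_le_iff₀ (Real.exp_pos _)]
    exact h1.trans_eq (mul_comm _ _)
  exact (Real.exp_le_exp.2 h2).trans h3

end Pool.Agent.X296.Count
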