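import Pool.Agent.X296.Count.Target
import Pool.Agent.X296.Count.Irred
import Pool.Agent.X296.Count.Flip

/-!
# The local conditions and their parameters
-/

open Polynomial NumberField

namespace Pool.Agent.X296.Count

open Pool.Agent.W518.DN Pool.Agent.W518.TC

/-- The local conditions on `h`. -/
structure Loc (p l1 l2 l3 : ℕ) (r : ℤ) (n k : ℕ) (h : ℤ[X]) : Prop where
  ord : ¬ (p : ℤ) ∣ h.coeff 0
  eis : ∀ i < n, (l1 : ℤ) ∣ h.coeff i
  eis0 : ¬ (l1 : ℤ) ^ 2 ∣ h.coeff 0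
  small : ∃ S : (ZMod l3)[X],
    h.map (Int.castRingHom (ZMod l3)) = 1 + (X ^ (l3 ^ k.factorial) - X) * S
  flip1 : (l2 : ℤ) ∣ h.eval r
  flip2 : ¬ (l2 : ℤ) ^ 2 ∣ h.eval r
  flip3 : (h.map (Int.castRingHom (ZMod l2))).Separable
  flip4 : ¬ (l2 : ℤ) ∣ h.eval (-r)

theorem exists_target (q : ℤ) {p l1 l2 l3 : ℕ} [hp : Fact p.Prime] [h1 : Fact l1.Prime]
    [h2 : Fact l2.Prime] [h3 : Fact l3.Prime] (hp1 : p ≠ l1) (hp2 : p ≠ l2) (hp3 : p ≠ l3)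
    (h12 : l1 ≠ l2) (h13 : l1 ≠ l3) (h23 : l2 ≠ l3) {k g : ℕ} (hk : 1 ≤ k) (hk2 : k + 3 < l2)
    (hg : k + 2 ≤ g) (hg2 : l3 ^ k.factorial ≤ g - k) {r : ℤ} (hlr : ¬ (l2 : ℤ) ∣ r) :
    ∃ E : ℤ[X], E.degree < (g - k : ℕ) ∧ ∀ h : ℤ[X],
      C ((p : ℤ) * l1 ^ 2 * (l2 ^ 2 * l3)) ∣ h - (dick q g + E) →
        Loc p l1 l2 l3 r (g - k) k h := by
  obtain ⟨Ep, hEp, hp'⟩ := target_p q (p := p) (g := g) (n := g - k) (by omega)
  obtain ⟨E1, hE1, h1'⟩ := target_eis q (l := l1) (g := g) (n := g - k) (by omega) (by omega)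
  obtain ⟨E3, hE3, h3'⟩ := target_small q (l := l3) (g := g) (n := g - k)
    (N := l3 ^ k.factorial) (by omega) hg2 (by
      calc 2 ≤ l3 := h3.out.two_le
        _ = l3 ^ 1 := (pow_one _).symm
        _ ≤ l3 ^ k.factorial := Nat.pow_le_pow_right h3.out.pos (Nat.factorial_pos k))
  obtain ⟨E2, hE2, h2'⟩ := target_flip q (l := l2) (g := g) (i0 := k) hk hk2 hg hlr
  have cop : ∀ a b : ℕ, a.Prime → b.Prime → a ≠ b → IsCoprime (a : ℤ) (b : ℤ) := by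
    intro a b ha hb hab
    exact Nat.isCoprime_iff_coprime.2 ((Nat.coprime_primes ha hb).2 hab)
  obtain ⟨G1, hG1, hG1p, hG11⟩ := crt_poly (a := (p : ℤ)) (b := (l1 : ℤ) ^ 2)
    ((cop _ _ hp.out h1.out hp1).pow_right) hEp hE1
  obtain ⟨G2, hG2, hG22, hG23⟩ := crt_poly (a := (l2 : ℤ) ^ 2) (b := (l3 : ℤ))
    ((cop _ _ h2.out h3.out h23).pow_left) hE2 hE3
  obtain ⟨G, hG, hGG1, hGG2⟩ := crt_poly (a := (p : ℤ) * l1 ^ 2) (b := (l2 : ℤ) ^ 2 * l3)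
    (IsCoprime.mul_left
      (IsCoprime.mul_right ((cop _ _ hp.out h2.out hp2).pow_right) (cop _ _ hp.out h3.out hp3))
      (IsCoprime.mul_right ((cop _ _ h1.out h2.out h12).pow)
        ((cop _ _ h1.out h3.out h13).pow_left))) hG1 hG2
  refine ⟨G, hG, fun h hh => ?_⟩
  have hd1 : (C ((p : ℤ) * l1 ^ 2) : ℤ[X]) ∣ h - (dick q g + G1) := by
    have e1 : (C ((p : ℤ) * l1 ^ 2) : ℤ[X]) ∣ h - (dick q g + G) := by
      refine dvd_trans ?_ hh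
      rw [C_mul (a := (p : ℤ) * l1 ^ 2)]; exact dvd_mul_right _ _
    have e2 : h - (dick q g + G1) = (h - (dick q g + G)) + (G - G1) := by ring
    rw [e2]; exact dvd_add e1 hGG1
  have hd2 : (C ((l2 : ℤ) ^ 2 * l3) : ℤ[X]) ∣ h - (dick q g + G2) := by
    have e1 : (C ((l2 : ℤ) ^ 2 * l3) : ℤ[X]) ∣ h - (dick q g + G) := by
      refine dvd_trans ?_ hh
      rw [C_mul (a := (p : ℤ) * l1 ^ 2)]; exact dvd_mul_left _ _
    have e2 : h - (dick q g + G2) = (h - (dick q g + G)) + (G - G2) := by ring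
    rw [e2]; exact dvd_add e1 hGG2
  have hfp : (C (p : ℤ) : ℤ[X]) ∣ h - (dick q g + Ep) := by
    have e2 : h - (dick q g + Ep) = (h - (dick q g + G1)) + (G1 - Ep) := by ring
    rw [e2]
    refine dvd_add (dvd_trans ?_ hd1) hG1p
    rw [C_mul]; exact dvd_mul_right _ _
  have hf1 : (C ((l1 : ℤ) ^ 2) : ℤ[X]) ∣ h - (dick q g + E1) := by
    have e2 : h - (dick q g + E1) = (h - (dick q g + G1)) + (G1 - E1) := by ring
    rw [e2]
    refine dvd_add (dvd_trans ?_ hd1) hG11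
    rw [C_mul]; exact dvd_mul_left _ _
  have hf2 : (C ((l2 : ℤ) ^ 2) : ℤ[X]) ∣ h - (dick q g + E2) := by
    have e2 : h - (dick q g + E2) = (h - (dick q g + G2)) + (G2 - E2) := by ring
    rw [e2]
    refine dvd_add (dvd_trans ?_ hd2) hG22
    rw [C_mul]; exact dvd_mul_right _ _
  have hf3 : (C (l3 : ℤ) : ℤ[X]) ∣ h - (dick q g + E3) := by
    have e2 : h - (dick q g + E3) = (h - (dick q g + G2)) + (G2 - E3) := by ring
    rw [e2]
    refine dvd_add (dvd_trans ?_ hd2) hG23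
    rw [C_mul]; exact dvd_mul_left _ _
  obtain ⟨f1, f2, f3, f4⟩ := h2' h hf2
  exact ⟨hp' h hfp, (h1' h hf1).1, (h1' h hf1).2, h3' h hf3, f1, f2, f3, f4⟩

/-- A prime modulo whose square `q` is a square. -/
theorem exists_sq_prime {q M : ℕ} (hq : 2 ≤ q) (hM : 2 ≤ M) :
    ∃ l : ℕ, l.Prime ∧ M < l ∧ ¬ l ∣ q ∧ ∃ r : ℤ, (l : ℤ) ^ 2 ∣ r ^ 2 - 4 * q ∧ ¬ (l : ℤ) ∣ r := by
  set A := M.factorial with hA
  have hA1 : 1 ≤ A := Nat.factorial_pos M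
  have hA2 : 1 ≤ A ^ 2 := Nat.one_le_pow _ _ hA1
  have hA3 : 2 ≤ A := by
    rw [hA]
    calc 2 = Nat.factorial 2 := rfl
      _ ≤ M.factorial := Nat.factorial_le hM
  have hW1 : q * A ^ 2 - 1 ≠ 1 := by
    have : 2 * 4 ≤ q * A ^ 2 := Nat.mul_le_mul hq (by nlinarith)
    omega
  obtain ⟨l, hl, hlW⟩ := Nat.exists_prime_and_dvd hW1
  have hWpos : 1 ≤ q * A ^ 2 := by nlinarith
  have key : ¬ l ∣ q * A ^ 2 := by
    intro h
    have h1 : l ∣ 1 := by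
      have := Nat.dvd_sub h hlW
      have h2 : q * A ^ 2 - (q * A ^ 2 - 1) = 1 := by omega
      rwa [h2] at this
    exact hl.one_lt.ne' (Nat.dvd_one.1 h1)
  have hlq : ¬ l ∣ q := fun h => key (h.mul_right _)
  have hlA : ¬ l ∣ A := fun h => key ((h.trans (dvd_pow_self _ two_ne_zero)).mul_left _)
  have hMl : M < l := by
    by_contra h
    exact hlA ((hl.dvd_factorial).2 (by omega))
  obtain ⟨w, hw⟩ := hlW
  have hw' : (q : ℤ) * A ^ 2 - 1 = l * w := by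
    have h1 : q * A ^ 2 = l * w + 1 := by omega
    have h2 : ((q * A ^ 2 : ℕ) : ℤ) = ((l * w + 1 : ℕ) : ℤ) := by rw [h1]
    push_cast at h2
    linarith
  refine ⟨l, hl, hMl, hlq, 2 * (q * A) - (q * (l * w)) * A * (l + 1), ?_, ?_⟩
  · refine ⟨4 * q * w * (-(l * w) - w - 1) + q ^ 2 * w ^ 2 * A ^ 2 * (l + 1) ^ 2, ?_⟩
    have hx : (q : ℤ) * A ^ 2 = l * w + 1 := by linarith
    linear_combination (4 * (q : ℤ) - 4 * (q : ℤ) * (l * w) * (l + 1)) * hx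
  · intro hcon
    have hZ := Nat.prime_iff_prime_int.1 hl
    have h1 : (l : ℤ) ∣ 2 * (q * A) := by
      have h2 : (l : ℤ) ∣ (q * (l * w)) * A * (l + 1) := ⟨q * w * A * (l + 1), by ring⟩
      have := dvd_add hcon h2
      rwa [sub_add_cancel] at this
    rcases hZ.dvd_or_dvd h1 with h3 | h3
    · have h4 : l ∣ 2 := by exact_mod_cast h3
      have := Nat.le_of_dvd two_pos h4
      omega
    · rcases hZ.dvd_or_dvd h3 with h4 | h4
      · exact hlq (by exact_mod_cast h4)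
      · exact hlA (by exact_mod_cast h4)

/-- Exponential growth beats a polynomial. -/
theorem exists_growth {Q : ℝ} (hQ : 1 < Q) (K : ℕ) :
    ∃ I : ℕ, ∀ i ≥ I, (K : ℝ) * (i + 4) ^ 2 * (i * (i + 1)) ≤ Q ^ i := by
  have h1 := tendsto_pow_const_div_const_pow_of_one_lt 4 hQ
  have h2 : ∀ᶠ i : ℕ in Filter.atTop, (i : ℝ) ^ 4 / Q ^ i < 1 / (50 * K + 1) :=
    h1.eventually_lt_const (by positivity)
  obtain ⟨I, hI⟩ := Filter.eventually_atTop.1 h2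
  refine ⟨max I 1, fun i hi => ?_⟩
  have h3 := hI i ((le_max_left _ _).trans hi)
  have hi1 : (1 : ℝ) ≤ i := by exact_mod_cast (le_max_right _ _).trans hi
  have hQi : 0 < Q ^ i := by positivity
  rw [div_lt_div_iff₀ hQi (by positivity)] at h3
  have h4 : ((i : ℝ) + 4) ^ 2 * (i * (i + 1)) ≤ 50 * i ^ 4 := by
    have e1 : ((i : ℝ) + 4) ^ 2 ≤ 25 * i ^ 2 := by nlinarith
    have e2 : (i : ℝ) * (i + 1) ≤ 2 * i ^ 2 := by nlinarith
    calc ((i : ℝ) + 4) ^ 2 * (i * (i + 1)) ≤ 25 * i ^ 2 * (2 * i ^ 2) :=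
          mul_le_mul e1 e2 (by positivity) (by positivity)
      _ = 50 * i ^ 4 := by ring
  have hK : (0 : ℝ) ≤ K := Nat.cast_nonneg _
  calc (K : ℝ) * (i + 4) ^ 2 * (i * (i + 1)) = K * (((i : ℝ) + 4) ^ 2 * (i * (i + 1))) := by ring
    _ ≤ (K : ℝ) * (50 * (i : ℝ) ^ 4) := mul_le_mul_of_nonneg_left h4 hK
    _ ≤ (i : ℝ) ^ 4 * (50 * K + 1) := by nlinarith [pow_nonneg (zero_le_one.trans hi1) 4]
    _ ≤ 1 * Q ^ i := h3.le
    _ = Q ^ i := one_mul _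

end Pool.Agent.X296.Count
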