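import Mathlib

/-!
# Separable polynomials with prescribed leading coefficients
-/

open Polynomial

namespace Pool.Agent.X296.Count

/-- Among the polynomials `X ^ m * a + c` there is a separable one without roots at `r`, `-r`. -/
theorem exists_separable {l : ℕ} [hl : Fact l.Prime] {i0 m : ℕ} (hm : m ≠ 0) (a : (ZMod l)[X])
    (ha : a.natDegree ≤ i0) (hw : (C (m : ZMod l) * a + X * derivative a) ≠ 0) (hl3 : i0 + 3 < l)
    (r : ZMod l) : ∃ c : ZMod l, (X ^ m * a + C c).Separable ∧ (X ^ m * a + C c).eval r ≠ 0 ∧
      (X ^ m * a + C c).eval (-r) ≠ 0 := by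
  classical
  set K := AlgebraicClosure (ZMod l)
  set w : (ZMod l)[X] := C (m : ZMod l) * a + X * derivative a with hwdef
  have hder : ∀ c : ZMod l, derivative (X ^ m * a + C c) = X ^ (m - 1) * w := by
    intro c
    obtain ⟨n, rfl⟩ := Nat.exists_eq_succ_of_ne_zero hm
    rw [derivative_add, derivative_mul, derivative_X_pow, derivative_C, hwdef]
    simp only [Nat.succ_eq_add_one, Nat.add_sub_cancel]
    push_cast
    ring
  have hwdeg : w.natDegree ≤ i0 := by
    rw [hwdef]
    refine (natDegree_add_le _ _).trans (max_le ?_ ?_)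
    · exact (natDegree_C_mul_le _ _).trans ha
    · by_cases h0 : derivative a = 0
      · rw [h0]; simp
      · rw [natDegree_X_mul h0]
        have h1 : a.natDegree ≠ 0 := by
          intro h2
          rw [natDegree_eq_zero] at h2
          obtain ⟨x, rfl⟩ := h2
          exact h0 derivative_C
        have h2 := natDegree_derivative_lt h1
        omega
  set bad : Finset K := ((w.map (algebraMap (ZMod l) K)).roots.toFinset.image
    (fun ρ => -(ρ ^ m * aeval ρ a))) ∪ {0, algebraMap (ZMod l) K (-(r ^ m * eval r a)),
      algebraMap (ZMod l) K (-((-r) ^ m * eval (-r) a))} with hbad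
  have hcard : bad.card ≤ i0 + 3 := by
    refine (Finset.card_union_le _ _).trans (add_le_add ?_ Finset.card_le_three)
    refine Finset.card_image_le.trans ?_
    refine (Multiset.toFinset_card_le _).trans ?_
    refine (card_roots' _).trans ?_
    exact natDegree_map_le.trans hwdeg
  obtain ⟨c, hc⟩ : ∃ c : ZMod l, algebraMap (ZMod l) K c ∉ bad := by
    by_contra hcon
    push Not at hcon
    have h1 : (Finset.univ.image (algebraMap (ZMod l) K)).card ≤ bad.card := by
      apply Finset.card_le_card
      intro x hx
      obtain ⟨c, -, rfl⟩ := Finset.mem_image.1 hx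
      exact hcon c
    rw [Finset.card_image_of_injective _ (algebraMap (ZMod l) K).injective, Finset.card_univ,
      ZMod.card] at h1
    omega
  rw [hbad, Finset.mem_union, not_or] at hc
  obtain ⟨hc1, hc2⟩ := hc
  simp only [Finset.mem_insert, Finset.mem_singleton, not_or] at hc2
  obtain ⟨hc0, hcr, hcr'⟩ := hc2
  refine ⟨c, ?_, ?_, ?_⟩
  · rw [separable_def, isCoprime_iff_aeval_ne_zero_of_isAlgClosed (ZMod l) K]
    intro ρ
    by_contra hcon
    push Not at hcon
    obtain ⟨h1, h2⟩ := hcon
    rw [hder] at h2
    simp only [map_add, map_mul, map_pow, aeval_X, aeval_C] at h1 h2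
    have h3 : algebraMap (ZMod l) K c = -(ρ ^ m * aeval ρ a) := by
      linear_combination h1
    rcases mul_eq_zero.1 h2 with h4 | h4
    · have h5 : ρ = 0 := eq_zero_of_pow_eq_zero h4
      rw [h5, zero_pow hm, zero_mul, neg_zero] at h3
      exact hc0 h3
    · apply hc1
      rw [Finset.mem_image]
      refine ⟨ρ, ?_, h3.symm⟩
      rw [Multiset.mem_toFinset, mem_roots (by
        rw [Ne, Polynomial.map_eq_zero]; exact hw), IsRoot.def, eval_map_algebraMap]
      exact h4
  · intro h1
    apply hcr
    congr 1
    simp only [eval_add, eval_mul, eval_pow, eval_X, eval_C] at h1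
    linear_combination h1
  · intro h1
    apply hcr'
    congr 1
    simp only [eval_add, eval_mul, eval_pow, eval_X, eval_C] at h1
    linear_combination h1

end Pool.Agent.X296.Count
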