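import Pool.Agent.X296.Count.Dickson
import Pool.Agent.X296.Count.Sep

/-!
# Local targets with prescribed leading coefficients
-/

open Polynomial

namespace Pool.Agent.X296.Count

noncomputable section

lemma dick_ne_zero (q : ℤ) {g : ℕ} (hg : g ≠ 0) : dick q g ≠ 0 := (dick_monic q hg).ne_zero

/-- the target modulo `p` -/
lemma target_p (q : ℤ) {p g n : ℕ} [hp : Fact p.Prime] (hn : 1 ≤ n) :
    ∃ E : ℤ[X], E.degree < n ∧ ∀ h : ℤ[X], C (p : ℤ) ∣ h - (dick q g + E) →
      ¬ (p : ℤ) ∣ h.coeff 0 := by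
  refine ⟨C (1 - (dick q g).coeff 0), ?_, ?_⟩
  · refine lt_of_le_of_lt degree_C_le ?_
    exact_mod_cast hn
  · rintro h ⟨T, hT⟩ hcon
    have h1 : h.coeff 0 = 1 + p * T.coeff 0 := by
      have h2 : h = dick q g + C (1 - (dick q g).coeff 0) + C (p : ℤ) * T := by
        rw [← hT]; ring
      rw [h2]
      simp only [coeff_add, coeff_C_zero, coeff_C_mul]
      ring
    rw [h1] at hcon
    have h3 : (p : ℤ) ∣ 1 := by
      have := dvd_sub hcon (dvd_mul_right (p : ℤ) (T.coeff 0))
      simpa using this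
    have h4 : p ∣ 1 := by exact_mod_cast h3
    exact hp.out.one_lt.ne' (Nat.dvd_one.1 h4)

/-- the Eisenstein target modulo `l ^ 2` -/
lemma target_eis (q : ℤ) {l g n : ℕ} [hl : Fact l.Prime] (hn : 1 ≤ n) (hng : n ≤ g) :
    ∃ E : ℤ[X], E.degree < n ∧ ∀ h : ℤ[X], C ((l : ℤ) ^ 2) ∣ h - (dick q g + E) →
      (∀ i < n, (l : ℤ) ∣ h.coeff i) ∧ ¬ (l : ℤ) ^ 2 ∣ h.coeff 0 := by
  have hX : (X ^ n : ℤ[X]).Monic := monic_X_pow n
  refine ⟨-(dick q g %ₘ X ^ n) + C (l : ℤ), ?_, ?_⟩
  · refine (degree_add_le _ _).trans_lt (max_lt ?_ ?_)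
    · rw [degree_neg]
      have := degree_modByMonic_lt (dick q g) hX
      rwa [degree_X_pow] at this
    · exact lt_of_le_of_lt degree_C_le (by exact_mod_cast hn)
  · rintro h ⟨T, hT⟩
    have h2 : h = X ^ n * (dick q g /ₘ X ^ n) + C (l : ℤ) + C ((l : ℤ) ^ 2) * T := by
      have h3 := modByMonic_add_div (dick q g) (X ^ n)
      rw [← hT]
      linear_combination (-1 : ℤ[X]) * h3
    have hco : ∀ i < n, h.coeff i = (C (l : ℤ) : ℤ[X]).coeff i + (l : ℤ) ^ 2 * T.coeff i := by
      intro i hi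
      rw [h2, coeff_add, coeff_add, coeff_C_mul, coeff_X_pow_mul', if_neg (by omega), zero_add]
    constructor
    · intro i hi
      rw [hco i hi, coeff_C]
      split_ifs with h4
      · exact dvd_add dvd_rfl ((dvd_pow_self _ two_ne_zero).mul_right _)
      · rw [zero_add]; exact (dvd_pow_self _ two_ne_zero).mul_right _
    · intro hcon
      rw [hco 0 (by omega), coeff_C_zero] at hcon
      have h5 : (l : ℤ) ^ 2 ∣ l := by
        have := dvd_sub hcon (dvd_mul_right ((l : ℤ) ^ 2) (T.coeff 0))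
        simpa using this
      have h6 : l ^ 2 ∣ l := by exact_mod_cast h5
      have h7 := Nat.le_of_dvd hl.out.pos h6
      nlinarith [hl.out.two_le]

/-- the target modulo `l` excluding small factors -/
lemma target_small (q : ℤ) {l g n N : ℕ} [hl : Fact l.Prime] (hn : 1 ≤ n) (hN : N ≤ n)
    (hN2 : 2 ≤ N) :
    ∃ E : ℤ[X], E.degree < n ∧ ∀ h : ℤ[X], C (l : ℤ) ∣ h - (dick q g + E) →
      ∃ S : (ZMod l)[X], h.map (Int.castRingHom (ZMod l)) = 1 + (X ^ N - X) * S := by
  have hX : (X ^ N - X : ℤ[X]).Monic := monic_X_pow_sub (by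
    rw [degree_X]; exact_mod_cast (by omega))
  have hXd : (X ^ N - X : ℤ[X]).degree = N := by
    rw [degree_sub_eq_left_of_degree_lt, degree_X_pow]
    rw [degree_X_pow, degree_X]
    exact_mod_cast (by omega)
  refine ⟨-(dick q g %ₘ (X ^ N - X)) + 1, ?_, ?_⟩
  · refine (degree_add_le _ _).trans_lt (max_lt ?_ ?_)
    · rw [degree_neg]
      have := degree_modByMonic_lt (dick q g) hX
      rw [hXd] at this
      exact this.trans_le (by exact_mod_cast hN)
    · rw [degree_one]; exact_mod_cast hn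
  · rintro h ⟨T, hT⟩
    refine ⟨(dick q g /ₘ (X ^ N - X)).map (Int.castRingHom (ZMod l)), ?_⟩
    have h2 : h = 1 + (X ^ N - X) * (dick q g /ₘ (X ^ N - X)) + C (l : ℤ) * T := by
      have h3 := modByMonic_add_div (dick q g) (X ^ N - X)
      rw [← hT]
      linear_combination (-1 : ℤ[X]) * h3
    have h4 : (C (l : ℤ) : ℤ[X]).map (Int.castRingHom (ZMod l)) = 0 := by
      rw [map_C]; simp
    conv_lhs => rw [h2]
    rw [Polynomial.map_add, Polynomial.map_mul, h4, zero_mul, add_zero]
    simp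

lemma coeff_X_mul_derivative' {F : Type*} [CommRing F] (a : F[X]) (j : ℕ) :
    (X * derivative a).coeff j = a.coeff j * j := by
  cases j with
  | zero => simp
  | succ j => rw [coeff_X_mul, coeff_derivative]; push_cast; ring

/-- the target modulo `l ^ 2` for the flip -/
lemma target_flip (q : ℤ) {l g i0 : ℕ} [hl : Fact l.Prime] (hi0 : 1 ≤ i0) (hl3 : i0 + 3 < l)
    (hg : i0 + 2 ≤ g) {r : ℤ} (hlr : ¬ (l : ℤ) ∣ r) :
    ∃ E : ℤ[X], E.degree < (g - i0 : ℕ) ∧ ∀ h : ℤ[X], C ((l : ℤ) ^ 2) ∣ h - (dick q g + E) →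
      (l : ℤ) ∣ h.eval r ∧ ¬ (l : ℤ) ^ 2 ∣ h.eval r ∧
        (h.map (Int.castRingHom (ZMod l))).Separable ∧ ¬ (l : ℤ) ∣ h.eval (-r) := by
  obtain ⟨m, hm⟩ : ∃ m, g = m + 1 + i0 := ⟨g - i0 - 1, by omega⟩
  have hm1 : 1 ≤ m := by omega
  obtain ⟨j, rfl⟩ : ∃ j, i0 = j + 1 := ⟨i0 - 1, by omega⟩
  have hg0 : g ≠ 0 := by omega
  have hgn : g - (j + 1) = m + 1 := by omega
  set T : ℤ[X] := dick q g /ₘ (X - C r) with hT
  have hTd : T.natDegree = m + (j + 1) := by
    rw [hT, natDegree_divByMonic _ (monic_X_sub_C r), dick_natDegree q hg0, natDegree_X_sub_C]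
    omega
  have hTm : T.Monic := by
    rw [Monic, hT, leadingCoeff_divByMonic_of_monic (monic_X_sub_C r)]
    · exact dick_monic q hg0
    · rw [degree_X_sub_C, degree_eq_natDegree (dick_ne_zero q hg0), dick_natDegree q hg0]
      exact_mod_cast (by omega)
  have hTeq : dick q g = C (eval r (dick q g)) + (X - C r) * T := by
    have := modByMonic_add_div (dick q g) (X - C r)
    rw [modByMonic_X_sub_C_eq_C_eval] at this
    exact this.symm
  have hTc : T.coeff (m + j) = r := by
    have h1 : (dick q g).coeff (m + j + 1) = 0 := by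
      have h2 : m + 1 + (j + 1) = m + j + 1 + 1 := by omega
      rw [hm, h2]; exact dick_coeff q (m + j + 1)
    rw [hTeq, coeff_add, coeff_C_succ, sub_mul, coeff_sub, coeff_X_mul, coeff_C_mul] at h1
    have h2 : T.coeff (m + j + 1) = 1 := by
      have := hTm.coeff_natDegree
      rwa [hTd] at this
    rw [h2] at h1
    linarith
  have hX : (X ^ m : ℤ[X]).Monic := monic_X_pow m
  set a : ℤ[X] := T /ₘ X ^ m with ha
  set T0 : ℤ[X] := T %ₘ X ^ m with hT0
  have hTa : T = T0 + X ^ m * a := (modByMonic_add_div T (X ^ m)).symm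
  have had : a.natDegree = j + 1 := by
    rw [ha, natDegree_divByMonic _ hX, hTd, natDegree_X_pow]; omega
  have ham : a.Monic := by
    rw [Monic, ha, leadingCoeff_divByMonic_of_monic hX]
    · exact hTm
    · rw [degree_X_pow, degree_eq_natDegree hTm.ne_zero, hTd]
      exact_mod_cast (by omega)
  have hT0d : T0.natDegree < m := by
    have := natDegree_modByMonic_lt T hX (by
      intro h1
      have := congrArg natDegree h1
      rw [natDegree_X_pow, natDegree_one] at this
      omega)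
    rwa [natDegree_X_pow] at this
  have hac : a.coeff j = r := by
    rw [← hTc, hTa, coeff_add, coeff_eq_zero_of_natDegree_lt (p := T0) (by omega), zero_add,
      Nat.add_comm m j, coeff_X_pow_mul]
  set F := ZMod l
  set φ : ℤ →+* F := Int.castRingHom (ZMod l) with hφ
  have hφ0 : ∀ n : ℤ, φ n = 0 ↔ (l : ℤ) ∣ n := by
    intro n
    rw [← ZMod.intCast_zmod_eq_zero_iff_dvd]; rfl
  have hr0 : φ r ≠ 0 := fun h => hlr ((hφ0 r).1 h)
  have hamap : (a.map φ).natDegree = j + 1 := by rw [ham.natDegree_map, had]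
  have hw : (C (m : F) * a.map φ + X * derivative (a.map φ)) ≠ 0 := by
    intro h0
    have h1 := congrArg (fun P : F[X] => P.coeff (j + 1)) h0
    have h2 := congrArg (fun P : F[X] => P.coeff j) h0
    simp only [coeff_add, coeff_C_mul, coeff_X_mul_derivative', coeff_zero, coeff_map, hac] at h1 h2
    have h3 : a.coeff (j + 1) = 1 := by
      have := ham.coeff_natDegree
      rwa [had] at this
    rw [h3, map_one, mul_one, one_mul] at h1
    have h4 : ((m : F) + j) * φ r = 0 := by linear_combination h2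
    rcases mul_eq_zero.1 h4 with h5 | h5
    · push_cast at h1
      have : (1 : F) = 0 := by linear_combination h1 - h5
      exact one_ne_zero this
    · exact hr0 h5
  obtain ⟨c, hcs, hcr, hcr'⟩ := exists_separable (l := l) (i0 := j + 1) (m := m) (by omega)
    (a.map φ) hamap.le hw hl3 (φ r)
  obtain ⟨c', hc'⟩ : ∃ c' : ℤ, φ c' = c := ZMod.intCast_surjective c
  refine ⟨(X - C r) * (X ^ m * a + C c') + C (l : ℤ) - dick q g, ?_, ?_⟩
  · have h1 : (X - C r) * (X ^ m * a + C c') + C (l : ℤ) - dick q g =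
        (X - C r) * (C c' - T0) + C ((l : ℤ) - eval r (dick q g)) := by
      rw [C_sub]
      conv_lhs => rw [hTeq, hTa]
      ring
    have h2 : ((X - C r) * (C c' - T0)).natDegree ≤ m := by
      refine natDegree_mul_le.trans ?_
      rw [natDegree_X_sub_C]
      have h3 : (C c' - T0).natDegree ≤ m - 1 := by
        refine (natDegree_sub_le _ _).trans (max_le ?_ (by omega))
        rw [natDegree_C]; omega
      omega
    rw [h1, hgn]
    refine lt_of_le_of_lt degree_le_natDegree ?_
    have h4 : ((X - C r) * (C c' - T0) + C ((l : ℤ) - eval r (dick q g))).natDegree ≤ m := by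
      refine (natDegree_add_le _ _).trans (max_le h2 ?_)
      rw [natDegree_C]; omega
    exact_mod_cast lt_of_le_of_lt h4 (Nat.lt_succ_self m)
  · rintro h ⟨T2, hT2⟩
    have hh : h = (X - C r) * (X ^ m * a + C c') + C (l : ℤ) + C ((l : ℤ) ^ 2) * T2 := by
      rw [← hT2]; ring
    have hhr : h.eval r = l + (l : ℤ) ^ 2 * T2.eval r := by
      rw [hh]; simp
    have hmap : h.map φ = (X - C (φ r)) * (X ^ m * a.map φ + C c) := by
      rw [hh]
      simp only [Polynomial.map_add, Polynomial.map_mul, Polynomial.map_sub, map_X, map_C,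
        Polynomial.map_pow, hc']
      have h1 : φ (l : ℤ) = 0 := (hφ0 _).2 dvd_rfl
      have h2 : φ ((l : ℤ) ^ 2) = 0 := (hφ0 _).2 (dvd_pow_self _ two_ne_zero)
      rw [h1, h2]; simp
    refine ⟨?_, ?_, ?_, ?_⟩
    · rw [hhr]; exact dvd_add dvd_rfl ((dvd_pow_self _ two_ne_zero).mul_right _)
    · intro hcon
      rw [hhr] at hcon
      have h5 : (l : ℤ) ^ 2 ∣ l := by
        have := dvd_sub hcon (dvd_mul_right ((l : ℤ) ^ 2) (T2.eval r))
        simpa using this
      have h6 : l ^ 2 ∣ l := by exact_mod_cast h5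
      have h7 := Nat.le_of_dvd hl.out.pos h6
      nlinarith [hl.out.two_le]
    · rw [hmap]
      refine separable_X_sub_C.mul hcs ?_
      rw [(irreducible_X_sub_C (φ r)).coprime_iff_not_dvd, dvd_iff_isRoot]
      exact hcr
    · intro hcon
      rw [← hφ0] at hcon
      have h1 : (h.map φ).eval (-φ r) = φ (h.eval (-r)) := by
        rw [← map_neg, eval_map_apply]
      rw [← h1, hmap, eval_mul] at hcon
      rcases mul_eq_zero.1 hcon with h2 | h2
      · simp only [eval_sub, eval_X, eval_C] at h2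
        have h3 : φ (2 * r) = 0 := by
          rw [map_mul, map_ofNat]; linear_combination -h2
        rw [hφ0] at h3
        rcases (Nat.prime_iff_prime_int.1 hl.out).dvd_or_dvd h3 with h4 | h4
        · have h5 : l ∣ 2 := by exact_mod_cast h4
          have := Nat.le_of_dvd two_pos h5
          omega
        · exact hlr h4
      · exact hcr' h2

/-- Chinese remainder theorem for polynomials with a degree bound. -/
lemma crt_poly {a b : ℤ} (hab : IsCoprime a b) {d : WithBot ℕ} {E F : ℤ[X]} (hE : E.degree < d)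
    (hF : F.degree < d) : ∃ G : ℤ[X], G.degree < d ∧ C a ∣ G - E ∧ C b ∣ G - F := by
  obtain ⟨u, v, huv⟩ := hab
  have huv' : C u * C a + C v * C b = (1 : ℤ[X]) := by
    rw [← C_mul, ← C_mul, ← C_add, huv, C_1]
  refine ⟨C (v * b) * E + C (u * a) * F, ?_, ?_, ?_⟩
  · refine (degree_add_le _ _).trans_lt (max_lt ?_ ?_)
    · rw [← smul_eq_C_mul]; exact (degree_smul_le _ _).trans_lt hE
    · rw [← smul_eq_C_mul]; exact (degree_smul_le _ _).trans_lt hF
  · refine ⟨C u * (F - E), ?_⟩
    rw [C_mul, C_mul]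
    linear_combination E * huv'
  · refine ⟨C v * (E - F), ?_⟩
    rw [C_mul, C_mul]
    linear_combination F * huv'

end

end Pool.Agent.X296.Count
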