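import Pool.Agent.X296.Count.Params
import Pool.Agent.X296.Count.Abs
import Pool.Agent.X296.Count.Gtc2

/-!
# Ordinary, simple and Tate
-/

open Polynomial NumberField

namespace Pool.Agent.X296.Count

open Pool.Agent.W518.DN Pool.Agent.W518.TC

/-- A ramified flip makes every Tate class a polynomial in divisor classes. -/
theorem tate_of_flip (p : ℕ) [hp : Fact p.Prime] (a g : ℕ) (h : ℤ[X]) (hm : h.Monic)
    (hd : h.natDegree = g) (hirr : Irreducible (h.map (Int.castRingHom ℚ)))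
    (l : ℕ) [hl : Fact l.Prime] (hl2 : l ≠ 2) (hlq : ¬ l ∣ p ^ a) (r : ℤ)
    (hr : (l : ℤ) ^ 2 ∣ r ^ 2 - 4 * (p ^ a : ℕ)) (h0 : (l : ℤ) ∣ h.eval r)
    (h1 : ¬ (l : ℤ) ^ 2 ∣ h.eval r) (hsep : (h.map (Int.castRingHom (ZMod l))).Separable)
    (hnr : ¬ (l : ℤ) ∣ h.eval (-r)) :
    TateGenerated p a fun _ : Unit => lift ((p ^ a : ℕ) : ℤ) g h := by
  classical
  have hq : p ^ a ≠ 0 := pow_ne_zero _ hp.out.ne_zero
  have hPm : (lift ((p ^ a : ℕ) : ℤ) g h).Monic := (lift_monic _ _ _ hm hd).1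
  intro n T hT Ω _ _ _ V _ _ F hV m x hx
  set f : ℤ[X] := T * (lift ((p ^ a : ℕ) : ℤ) g h * h) with hf
  have hfm : f.Monic := hT.frob.monic.mul (hPm.mul hm)
  set PQ : ℚ[X] := f.map (Int.castRingHom ℚ) with hPQ
  have hLN : NumberField PQ.SplittingField :=
    { to_charZero := charZero_of_injective_algebraMap (algebraMap ℚ PQ.SplittingField).injective
      to_finiteDimensional := inferInstance }
  have hsf : IsSplittingField ℚ PQ.SplittingField PQ := Polynomial.IsSplittingField.splittingField PQ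
  have hnormal : Normal ℚ PQ.SplittingField := Normal.of_isSplittingField PQ
  have hGal : IsGalois ℚ PQ.SplittingField := ⟨⟩
  have hsplit : (f.map (Int.castRingHom PQ.SplittingField)).Splits := by
    have h1 := SplittingField.splits PQ
    convert h1 using 1
    rw [hPQ, Polynomial.map_map]; congr 1
  have hf0 : f.map (Int.castRingHom PQ.SplittingField) ≠ 0 := (hfm.map _).ne_zero
  have hTs : (T.map (Int.castRingHom PQ.SplittingField)).Splits :=
    hsplit.of_dvd hf0 (Polynomial.map_dvd _ (dvd_mul_right _ _))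
  have hsub : (((lift ((p ^ a : ℕ) : ℤ) g h) * h).map
      (Int.castRingHom PQ.SplittingField)).Splits :=
    hsplit.of_dvd hf0 (Polynomial.map_dvd _ (dvd_mul_left _ _))
  have hPs : ((lift ((p ^ a : ℕ) : ℤ) g h).map (Int.castRingHom PQ.SplittingField)).Splits :=
    hsub.of_dvd ((hPm.mul hm).map _).ne_zero (Polynomial.map_dvd _ (dvd_mul_right _ _))
  have hhs : (h.map (Int.castRingHom PQ.SplittingField)).Splits :=
    hsub.of_dvd ((hPm.mul hm).map _).ne_zero (Polynomial.map_dvd _ (dvd_mul_left _ _))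
  have hTss : ∀ z : PQ.SplittingField, (T.map (Int.castRingHom PQ.SplittingField)).IsRoot z →
      z ≠ 0 ∧ SS (p ^ a) z := by
    intro z hz
    obtain ⟨φ⟩ : Nonempty (PQ.SplittingField →+* ℂ) := inferInstance
    have h1 : T.map (Int.castRingHom ℂ) = (T.map (Int.castRingHom PQ.SplittingField)).map φ := by
      rw [Polynomial.map_map]; congr 1; exact RingHom.ext_int _ _
    have h2 : (T.map (Int.castRingHom ℂ)).IsRoot (φ z) := by rw [h1]; exact hz.map
    obtain ⟨t, ht, h3⟩ := hT.root _ h2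
    have h4 : (z ^ 2) ^ t = (((p ^ a : ℕ) : ℕ) : PQ.SplittingField) ^ t := by
      apply φ.injective
      rw [map_pow, map_pow, h3, map_pow, map_natCast]; push_cast; rfl
    refine ⟨?_, t, ht, h4⟩
    rintro rfl
    rw [zero_pow two_ne_zero, zero_pow ht.ne'] at h4
    exact pow_ne_zero t (by exact_mod_cast hq) h4.symm
  refine good_of_flips_ss (κ := Unit) (g := fun _ => g) (h := fun _ => h)
    (L := PQ.SplittingField) hq (fun _ => hm) (fun _ => hd) (fun _ => hirr) (fun _ => hPs) ?_ F n T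
    hT.frob.monic hTs hTss hV m x hx
  intro i0
  obtain ⟨σ, y0, hy0, hσ⟩ := exists_flip_ram (L := PQ.SplittingField) (p ^ a) hq g h hm hd hhs hPs
    l hl2 hlq r hr h0 h1 hsep hnr
  exact ⟨σ, y0, hy0, fun _ π hπ => hσ π hπ⟩

lemma lift_zero {A : Type*} [CommRing A] (g : ℕ) (h : A[X]) (hd : h.natDegree ≤ g) :
    lift (0 : A) g h = X ^ g * h := by
  conv_rhs => rw [h.as_sum_range' (g + 1) (by omega), Finset.mul_sum]
  rw [lift]
  refine Finset.sum_congr rfl fun k hk => ?_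
  have hk' := Finset.mem_range.1 hk
  have e : X ^ g = (X ^ (g - k) * X ^ k : A[X]) := by rw [← pow_add]; congr 1; omega
  rw [C_0, add_zero, ← C_mul_X_pow_eq_monomial, e]
  ring

lemma lift_coeff_mid {p : ℕ} [hp : Fact p.Prime] {a : ℕ} (ha : 1 ≤ a) {g : ℕ} {h : ℤ[X]}
    (hd : h.natDegree = g) (h0 : ¬ (p : ℤ) ∣ h.coeff 0) :
    ¬ (p : ℤ) ∣ (lift ((p ^ a : ℕ) : ℤ) g h).coeff g := by
  intro hcon
  apply h0
  rw [← ZMod.intCast_zmod_eq_zero_iff_dvd] at hcon ⊢
  have h1 : (lift ((p ^ a : ℕ) : ℤ) g h).map (Int.castRingHom (ZMod p)) =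
      X ^ g * h.map (Int.castRingHom (ZMod p)) := by
    rw [lift_map]
    have h2 : (Int.castRingHom (ZMod p)) ((p ^ a : ℕ) : ℤ) = 0 := by
      push_cast
      rw [map_pow, map_natCast, ZMod.natCast_self, zero_pow (by omega)]
    rw [h2, lift_zero _ _ (natDegree_map_le.trans hd.le)]
  have h3 := congrArg (fun P : (ZMod p)[X] => P.coeff g) h1
  simp only [coeff_map] at h3
  rw [coeff_X_pow_mul', if_pos le_rfl, Nat.sub_self, coeff_map] at h3
  have h4 : ((Int.castRingHom (ZMod p)) ((lift ((p ^ a : ℕ) : ℤ) g h).coeff g)) = 0 := hcon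
  rw [h4] at h3
  exact h3.symm

/-- The conclusion for a single polynomial. -/
structure IsGoodPoly (p : ℕ) [Fact p.Prime] (a g : ℕ) (P : ℤ[X]) : Prop where
  frob : IsFrobPoly p a P
  deg : P.natDegree = 2 * g
  irr : Irreducible P
  ord : ¬ (p : ℤ) ∣ P.coeff g
  tate : TateGenerated p a fun _ : Unit => P
  abs : ∀ n : ℕ, 0 < n → ∀ z w : ℂ, (P.map (Int.castRingHom ℂ)).IsRoot z →
    (P.map (Int.castRingHom ℂ)).IsRoot w → z ^ n = w ^ n → z = w
  gtc : GTCGenerated p a P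

/-- The parameters of the family. -/
theorem exists_family (p : ℕ) [hp : Fact p.Prime] (a : ℕ) (ha : 1 ≤ a) {Q : ℝ} (hQ1 : 1 < Q)
    (hQ : Q ^ 2 = (p : ℝ) ^ a) :
    ∃ N0 k g0 : ℕ, 0 < N0 ∧ (∀ i > k, (N0 : ℝ) * (i * (i + 1)) ≤ Q ^ i) ∧
      ∀ g ≥ g0, k + 2 ≤ g ∧ ∃ c0 : ℕ → ℤ, ∀ c : ℕ → ℤ,
        (∀ j < g - k, (N0 : ℤ) ∣ c j - c0 j) →
        (∑ j ∈ Finset.range (g - k), |(c j : ℝ)| * Q ^ j < Q ^ g) →
        IsGoodPoly p a g (lift ((p ^ a : ℕ) : ℤ) g (near ((p ^ a : ℕ) : ℤ) g (g - k) c)) := by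
  obtain ⟨l1, hpl1, hl1⟩ := Nat.exists_infinite_primes (p + 1)
  obtain ⟨l3, hl13, hl3⟩ := Nat.exists_infinite_primes (l1 + 1)
  obtain ⟨I, hI⟩ := exists_growth hQ1 (p * l1 ^ 2 * l3)
  have hq2 : 2 ≤ p ^ a := by
    calc 2 ≤ p := hp.out.two_le
      _ = p ^ 1 := (pow_one p).symm
      _ ≤ p ^ a := Nat.pow_le_pow_right hp.out.pos ha
  obtain ⟨l2, hl2, hMl2, hl2q, r, hr, hlr⟩ := exists_sq_prime (M := I + 5 + l3) hq2 (by omega)
  haveI : Fact l1.Prime := ⟨hl1⟩
  haveI : Fact l2.Prime := ⟨hl2⟩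
  haveI : Fact l3.Prime := ⟨hl3⟩
  obtain ⟨k, hk⟩ : ∃ k, l2 = k + 4 := ⟨l2 - 4, by omega⟩
  refine ⟨p * l1 ^ 2 * (l2 ^ 2 * l3), k, k + l3 ^ k.factorial + 3, ?_, ?_, ?_⟩
  · have := hp.out.pos
    have := hl1.pos
    have := hl2.pos
    have := hl3.pos
    positivity
  · intro i hi
    refine le_trans ?_ (hI i (by omega))
    have h1 : (l2 : ℝ) ≤ i + 4 := by
      rw [hk]; push_cast
      have : (k : ℝ) ≤ i := by exact_mod_cast hi.le
      linarith
    have h2 : (l2 : ℝ) ^ 2 ≤ ((i : ℝ) + 4) ^ 2 := pow_le_pow_left₀ (Nat.cast_nonneg _) h1 2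
    push_cast
    have h3 : (0 : ℝ) ≤ (p : ℝ) * l1 ^ 2 * l3 := by positivity
    have h4 : (0 : ℝ) ≤ (i : ℝ) * (i + 1) := by positivity
    calc (p : ℝ) * l1 ^ 2 * (l2 ^ 2 * l3) * (i * (i + 1))
        = (p * l1 ^ 2 * l3) * (l2 : ℝ) ^ 2 * (i * (i + 1)) := by ring
      _ ≤ (p * l1 ^ 2 * l3) * ((i : ℝ) + 4) ^ 2 * (i * (i + 1)) :=
          mul_le_mul_of_nonneg_right (mul_le_mul_of_nonneg_left h2 h3) h4
  · intro g hg
    have hg0 : g ≠ 0 := by omega
    refine ⟨by omega, ?_⟩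
    obtain ⟨E, hE, hloc⟩ := exists_target ((p ^ a : ℕ) : ℤ) (p := p) (l1 := l1) (l2 := l2)
      (l3 := l3) (by omega) (by omega) (by omega) (by omega) (by omega) (by omega) (k := k)
      (g := g) (by omega) (by omega) (by omega) (by omega) hlr
    obtain ⟨c0, hc0⟩ := exists_coords ((p ^ a : ℕ) : ℤ) (g - k) E hE
    refine ⟨c0, fun c hc hsum => ?_⟩
    set h : ℤ[X] := near ((p ^ a : ℕ) : ℤ) g (g - k) c with hh
    have hm : h.Monic := near_monic _ hg0 (Nat.sub_le _ _) c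
    have hd : h.natDegree = g := near_natDegree _ hg0 (Nat.sub_le _ _) c
    have hL : Loc p l1 l2 l3 r (g - k) k h := by
      apply hloc
      have e1 : h - (dick ((p ^ a : ℕ) : ℤ) g + E) =
          ∑ j ∈ Finset.range (g - k), C (c j - c0 j) * bas ((p ^ a : ℕ) : ℤ) j := by
        rw [hh, hc0, near]
        simp only [C_sub, sub_mul, Finset.sum_sub_distrib]
        ring
      rw [e1]
      refine Finset.dvd_sum fun j hj => ?_
      refine dvd_mul_of_dvd_left ?_ _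
      obtain ⟨t, ht⟩ := hc j (Finset.mem_range.1 hj)
      have e2 : ((p * l1 ^ 2 * (l2 ^ 2 * l3) : ℕ) : ℤ) = (p : ℤ) * l1 ^ 2 * (l2 ^ 2 * l3) := by
        push_cast; ring
      rw [ht, e2, C_mul (a := (p : ℤ) * l1 ^ 2 * (l2 ^ 2 * l3))]
      exact Dvd.intro _ rfl
    obtain ⟨S, hS⟩ := hL.small
    have hirrZ : Irreducible h := irreducible_of_local hm hd (by omega) (m := g - k) (k := k)
      (by omega) hL.eis hL.eis0 hS
    have hirr : Irreducible (h.map (Int.castRingHom ℚ)) :=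
      (IsPrimitive.Int.irreducible_iff_irreducible_map_cast hm.isPrimitive).1 hirrZ
    obtain ⟨y, hy, hyr, hyb⟩ := near_roots (Q := Q) (by linarith) (q := ((p ^ a : ℕ) : ℤ))
      (by rw [hQ]; push_cast; rfl) (g := g) (n := g - k) (by omega) c hsum
    have hfrob : IsFrobPoly p a (lift ((p ^ a : ℕ) : ℤ) g h) := by
      have := isFrobPoly_of_real (p := p) (a := a) hm hd hL.ord y hy hyr (by
        intro i
        have := hyb i
        push_cast at this
        exact this)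
      push_cast
      exact this
    have hPirr := lift_irreducible hm hd (by omega) hirr hfrob
    have hord := lift_coeff_mid (p := p) ha hd hL.ord
    exact ⟨hfrob, (lift_monic _ _ _ hm hd).2, hPirr, hord,
      tate_of_flip p a g h hm hd hirr l2 (by omega) hl2q r hr hL.flip1 hL.flip2 hL.flip3 hL.flip4,
      fun n hn z w hz hw hzw => pow_inj p a g ha (by omega) h hm hd hirr hPirr hord l2 (by omega)
        hl2q r hr hL.flip1 hL.flip2 hL.flip3 hL.flip4 n hn z w hz hw hzw,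
      gtc_of_flip p a g ha h hm hd hirr hL.ord l2 (by omega) hl2q r hr hL.flip1 hL.flip2 hL.flip3
        hL.flip4⟩

end Pool.Agent.X296.Count
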